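import Mathlib

/-!
# Graph minors (via branch sets) and the two operations used below
-/

set_option autoImplicit false

namespace Pool.Agent.Helper36.BL

open SimpleGraph

/-- `H` is a minor of `G`: there are pairwise disjoint connected (nonempty) branch sets `B w` in `G`
such that adjacent vertices of `H` have branch sets joined by an edge of `G`. -/
def IsMinor {W V : Type} (H : SimpleGraph W) (G : SimpleGraph V) : Prop :=
  ∃ B : W → Set V,
    (∀ w, (G.induce (B w)).Connected) ∧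
    (∀ w w', w ≠ w' → Disjoint (B w) (B w')) ∧
    (∀ w w', H.Adj w w' → ∃ a ∈ B w, ∃ b ∈ B w', G.Adj a b)

section

variable {V W U : Type}

lemma reach_mono (G : SimpleGraph V) {s t : Set V} (h : s ⊆ t) {x y : V} (hx : x ∈ s) (hy : y ∈ s)
    (hr : (G.induce s).Reachable ⟨x, hx⟩ ⟨y, hy⟩) :
    (G.induce t).Reachable ⟨x, h hx⟩ ⟨y, h hy⟩ :=
  hr.map (G.induceHomOfLE h).toHom

/-- A set with a hub is connected. -/
lemma star_connected (G : SimpleGraph V) (s : Set V) (v : V) (hv : v ∈ s)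
    (h : ∀ x ∈ s, x ≠ v → G.Adj v x) : (G.induce s).Connected := by
  have key : ∀ x : s, (G.induce s).Reachable ⟨v, hv⟩ x := by
    rintro ⟨x, hx⟩
    by_cases hxv : x = v
    · subst hxv; exact Reachable.refl _
    · apply Adj.reachable
      exact h x hx hxv
  exact { preconnected := fun x y => (key x).symm.trans (key y), nonempty := ⟨⟨v, hv⟩⟩ }

theorem IsMinor.trans {K : SimpleGraph U} {H : SimpleGraph W} {G : SimpleGraph V}
    (h₁ : IsMinor K H) (h₂ : IsMinor H G) : IsMinor K G := by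
  obtain ⟨C, hC1, hC2, hC3⟩ := h₁
  obtain ⟨B, hB1, hB2, hB3⟩ := h₂
  refine ⟨fun k => {x | ∃ w ∈ C k, x ∈ B w}, ?_, ?_, ?_⟩
  · intro k
    change (G.induce {x | ∃ w ∈ C k, x ∈ B w}).Connected
    set D : Set V := {x | ∃ w ∈ C k, x ∈ B w} with hD
    have hsub : ∀ w ∈ C k, B w ⊆ D := fun w hw x hx => ⟨w, hw, hx⟩
    have hin : ∀ w (hw : w ∈ C k) x y (hx : x ∈ B w) (hy : y ∈ B w),
        (G.induce D).Reachable ⟨x, hsub w hw hx⟩ ⟨y, hsub w hw hy⟩ := by
      intro w hw x y hx hy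
      exact reach_mono G (hsub w hw) hx hy ((hB1 w).preconnected ⟨x, hx⟩ ⟨y, hy⟩)
    have hwalk : ∀ (w w' : C k), (H.induce (C k)).Walk w w' →
        ∀ x y (hx : x ∈ B w) (hy : y ∈ B w'),
        (G.induce D).Reachable ⟨x, hsub w w.2 hx⟩ ⟨y, hsub w' w'.2 hy⟩ := by
      intro w w' p
      induction p with
      | @nil u => intro x y hx hy; exact hin u u.2 x y hx hy
      | @cons u v t hadj p ih =>
        intro x y hx hy
        obtain ⟨a, ha, b, hb, hab⟩ := hB3 u v hadj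
        have h1 := hin u u.2 x a hx ha
        have h2 : (G.induce D).Reachable ⟨a, hsub u u.2 ha⟩ ⟨b, hsub v v.2 hb⟩ :=
          Adj.reachable hab
        exact (h1.trans h2).trans (ih b y hb hy)
    obtain ⟨⟨w0, hw0⟩⟩ := (hC1 k).nonempty
    obtain ⟨⟨x0, hx0⟩⟩ := (hB1 w0).nonempty
    refine { preconnected := ?_, nonempty := ⟨⟨x0, hsub w0 hw0 hx0⟩⟩ }
    rintro ⟨x, w, hw, hx⟩ ⟨y, w', hw', hy⟩
    obtain ⟨p⟩ := (hC1 k).preconnected ⟨w, hw⟩ ⟨w', hw'⟩
    exact hwalk _ _ p x y hx hy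
  · intro k k' hkk
    rw [Set.disjoint_left]
    rintro x ⟨w, hw, hx⟩ ⟨w', hw', hx'⟩
    by_cases h : w = w'
    · subst h
      exact Set.disjoint_left.mp (hC2 k k' hkk) hw hw'
    · exact Set.disjoint_left.mp (hB2 w w' h) hx hx'
  · intro k k' hadj
    obtain ⟨w, hw, w', hw', hww⟩ := hC3 k k' hadj
    obtain ⟨a, ha, b, hb, hab⟩ := hB3 w w' hww
    exact ⟨a, ⟨w, hw, ha⟩, b, ⟨w', hw', hb⟩, hab⟩

/-- A subgraph (through an injection) is a minor. -/
theorem IsMinor.of_inj {H : SimpleGraph W} {G : SimpleGraph V} (f : W → V)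
    (hf : Function.Injective f) (h : ∀ w w', H.Adj w w' → G.Adj (f w) (f w')) : IsMinor H G := by
  refine ⟨fun w => {f w}, ?_, ?_, ?_⟩
  · intro w
    apply star_connected G {f w} (f w) (Set.mem_singleton _)
    intro x hx hne
    exact absurd hx hne
  · intro w w' hne
    rw [Set.disjoint_singleton]
    exact fun h => hne (hf h)
  · intro w w' hadj
    exact ⟨f w, rfl, f w', rfl, h w w' hadj⟩

theorem IsMinor.refl (G : SimpleGraph V) : IsMinor G G :=
  IsMinor.of_inj id (fun _ _ h => h) (fun _ _ h => h)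

theorem IsMinor.of_le {G G' : SimpleGraph V} (h : G' ≤ G) : IsMinor G' G :=
  IsMinor.of_inj id (fun _ _ h => h) (fun _ _ hh => h hh)

/-- No `K₅` minor. -/
def K5Free (G : SimpleGraph V) : Prop := ¬ IsMinor (⊤ : SimpleGraph (Fin 5)) G

theorem K5Free.minor {H : SimpleGraph W} {G : SimpleGraph V} (hG : K5Free G) (h : IsMinor H G) :
    K5Free H := fun hh => hG (hh.trans h)

/-- Deletion of the vertex `v`. -/
def del (G : SimpleGraph V) (v : V) : SimpleGraph {x : V // x ≠ v} := G.comap Subtype.val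

@[simp] lemma del_adj (G : SimpleGraph V) (v : V) (x y : {x : V // x ≠ v}) :
    (del G v).Adj x y ↔ G.Adj x y := Iff.rfl

/-- Identify `b` with `a` and join `a` to all vertices in `F`. -/
def mg (G : SimpleGraph V) (a b : V) (F : Set V) : SimpleGraph {x : V // x ≠ b} where
  Adj x y := x ≠ y ∧ (G.Adj x y ∨ ((x : V) = a ∧ (G.Adj b y ∨ (y : V) ∈ F)) ∨
    ((y : V) = a ∧ (G.Adj b x ∨ (x : V) ∈ F)))
  symm := by
    refine ⟨?_⟩
    rintro x y ⟨hne, h⟩
    refine ⟨hne.symm, ?_⟩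
    rcases h with h | h | h
    · exact Or.inl h.symm
    · exact Or.inr (Or.inr h)
    · exact Or.inr (Or.inl h)
  loopless := ⟨fun x h => h.1 rfl⟩

lemma mg_adj (G : SimpleGraph V) (a b : V) (F : Set V) (x y : {x : V // x ≠ b}) :
    (mg G a b F).Adj x y ↔ x ≠ y ∧ (G.Adj x y ∨ ((x : V) = a ∧ (G.Adj b y ∨ (y : V) ∈ F)) ∨
    ((y : V) = a ∧ (G.Adj b x ∨ (x : V) ∈ F))) := Iff.rfl

lemma isMinor_del (G : SimpleGraph V) (v : V) : IsMinor (del G v) G :=
  IsMinor.of_inj Subtype.val Subtype.val_injective (fun _ _ h => h)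

/-- Contraction of the edge `ab`. -/
lemma isMinor_mg_edge (G : SimpleGraph V) (a b : V) (hab : G.Adj a b) :
    IsMinor (mg G a b ∅) G := by
  refine ⟨fun x => {z | z = x ∨ ((x : V) = a ∧ z = b)}, ?_, ?_, ?_⟩
  · intro x
    apply star_connected G {z | z = (x : V) ∨ ((x : V) = a ∧ z = b)} x (Or.inl rfl)
    rintro y (hy | ⟨hx, hy⟩) hne
    · exact absurd hy hne
    · rw [hy, hx]; exact hab
  · intro x y hxy
    have hxy' : (x : V) ≠ y := fun h => hxy (Subtype.ext h)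
    rw [Set.disjoint_left]
    rintro z (hz | ⟨hx, hz⟩) (hz' | ⟨hy, hz'⟩)
    · exact hxy' (hz.symm.trans hz')
    · exact x.2 (hz.symm.trans hz')
    · exact y.2 (hz'.symm.trans hz)
    · exact hxy' (hx.trans hy.symm)
  · intro x y h
    rw [mg_adj] at h
    obtain ⟨hne, h⟩ := h
    rcases h with h | ⟨hx, h | h⟩ | ⟨hy, h | h⟩
    · exact ⟨x, Or.inl rfl, y, Or.inl rfl, h⟩
    · exact ⟨b, Or.inr ⟨hx, rfl⟩, y, Or.inl rfl, h⟩
    · exact absurd h (Set.notMem_empty _)
    · exact ⟨x, Or.inl rfl, b, Or.inr ⟨hy, rfl⟩, h.symm⟩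
    · exact absurd h (Set.notMem_empty _)

/-- The minor obtained by contracting `v a` and `v b`, keeping at `a` only some of the edges. -/
lemma isMinor_mg_del (G : SimpleGraph V) (v : V) (a b : {x : V // x ≠ v}) (F : Set {x : V // x ≠ v})
    (ha : G.Adj v a) (hb : G.Adj v b) (hF : ∀ m ∈ F, G.Adj v (m : V)) :
    IsMinor (mg (del G v) a b F) G := by
  refine ⟨fun x => {z | z = ((x : {x : V // x ≠ v}) : V) ∨
    ((x : {x : V // x ≠ v}) = a ∧ (z = v ∨ z = b))}, ?_, ?_, ?_⟩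
  · intro x
    by_cases hx : (x : {x : V // x ≠ v}) = a
    · apply star_connected G _ v (Or.inr ⟨hx, Or.inl rfl⟩)
      rintro y (hy | ⟨_, hy | hy⟩) hne
      · rw [hy, hx]; exact ha
      · exact absurd hy hne
      · rw [hy]; exact hb
    · apply star_connected G _ ((x : {x : V // x ≠ v}) : V) (Or.inl rfl)
      rintro y (hy | ⟨hx', hy⟩) hne
      · exact absurd hy hne
      · exact absurd hx' hx
  · intro x y hxy
    have hxy' : ((x : {x : V // x ≠ v}) : V) ≠ (y : {x : V // x ≠ v}) :=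
      fun h => hxy (Subtype.ext (Subtype.ext h))
    rw [Set.disjoint_left]
    rintro z (hz | ⟨hx, hz | hz⟩) (hz' | ⟨hy, hz' | hz'⟩)
    · exact hxy' (hz.symm.trans hz')
    · exact (x : {x : V // x ≠ v}).2 (hz.symm.trans hz')
    · exact x.2 (Subtype.ext (hz.symm.trans hz'))
    · exact (y : {x : V // x ≠ v}).2 (hz'.symm.trans hz)
    · exact hxy (Subtype.ext (hx.trans hy.symm))
    · exact hxy (Subtype.ext (hx.trans hy.symm))
    · exact y.2 (Subtype.ext (hz'.symm.trans hz))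
    · exact hxy (Subtype.ext (hx.trans hy.symm))
    · exact hxy (Subtype.ext (hx.trans hy.symm))
  · intro x y h
    rw [mg_adj] at h
    obtain ⟨hne, h⟩ := h
    rcases h with h | ⟨hx, h | h⟩ | ⟨hy, h | h⟩
    · exact ⟨_, Or.inl rfl, _, Or.inl rfl, h⟩
    · exact ⟨b, Or.inr ⟨hx, Or.inr rfl⟩, _, Or.inl rfl, h⟩
    · exact ⟨v, Or.inr ⟨hx, Or.inl rfl⟩, _, Or.inl rfl, hF _ h⟩
    · exact ⟨_, Or.inl rfl, b, Or.inr ⟨hy, Or.inr rfl⟩, h.symm⟩
    · exact ⟨_, Or.inl rfl, v, Or.inr ⟨hy, Or.inl rfl⟩, (hF _ h).symm⟩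

end

end Pool.Agent.Helper36.BL
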