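import Pool.Agent.Helper36.BL.Ratio

/-!
# Chromatic polynomials of `K₅`-minor-free graphs near `5`
-/

set_option autoImplicit false

namespace Pool.Agent.Helper36.BL

open SimpleGraph Finset Polynomial

open scoped Classical in
theorem exists_cp : ∀ (n : ℕ) (V : Type) [Fintype V] (G : SimpleGraph V), Fintype.card V = n →
    ∃ p : ℝ[X], ∀ N : ℕ, p.eval (N : ℝ) = (cnt G N : ℝ) := by
  intro n
  induction n using Nat.strong_induction_on with
  | _ n ih =>
  intro V _ G hV
  rcases isEmpty_or_nonempty V with hE | hN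
  · refine ⟨1, fun N => ?_⟩
    have : cnt G N = 1 := by
      unfold cnt
      rw [Finset.card_eq_one]
      refine ⟨fun v => (hE.false v).elim, ?_⟩
      ext c
      rw [mem_cols, Finset.mem_singleton]
      constructor
      · intro _; ext v; exact (hE.false v).elim
      · intro _ x; exact (hE.false x).elim
    rw [this]; simp
  · obtain ⟨w⟩ := hN
    have hcd := card_del w
    obtain ⟨pd, hpd⟩ := ih _ (by omega) {x : V // x ≠ w} (del G w) rfl
    have hm : ∀ p : {x : V // x ≠ w} × {x : V // x ≠ w}, ∃ pm : ℝ[X], ∀ N : ℕ,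
        pm.eval (N : ℝ) = (cnt (mm G w (lab V) p) N : ℝ) := by
      intro p
      have hc := card_mm w p.2
      exact ih _ (by omega) _ (mm G w (lab V) p) rfl
    choose pm hpm using hm
    refine ⟨(X - C (deg G w : ℝ)) * pd + ∑ p ∈ prs G w (lab V), pm p, fun N => ?_⟩
    have h := cnt_rec G w (lab V) lab_inj N
    have h' : (cnt G N : ℝ) + deg G w * cnt (del G w) N =
        N * cnt (del G w) N + ∑ p ∈ prs G w (lab V), (cnt (mm G w (lab V) p) N : ℝ) := by
      exact_mod_cast h
    simp only [eval_add, eval_mul, eval_sub, eval_X, eval_C, eval_finsetSum, hpd, hpm]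
    linarith

/-- the chromatic polynomial -/
noncomputable def cp {V : Type} [Fintype V] (G : SimpleGraph V) : ℝ[X] :=
  Classical.choose (exists_cp _ V G rfl)

lemma cp_eval {V : Type} [Fintype V] (G : SimpleGraph V) (N : ℕ) :
    (cp G).eval (N : ℝ) = (cnt G N : ℝ) :=
  Classical.choose_spec (exists_cp _ V G rfl) N

lemma poly_ext (p q : ℝ[X]) (h : ∀ N : ℕ, p.eval (N : ℝ) = q.eval (N : ℝ)) : p = q := by
  apply Polynomial.eq_of_infinite_eval_eq
  apply Set.Infinite.mono (s := Set.range (fun n : ℕ => (n : ℝ)))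
  · rintro _ ⟨n, rfl⟩
    exact h n
  · exact Set.infinite_range_of_injective Nat.cast_injective

open scoped Classical in
lemma cp_rec {V : Type} [Fintype V] (G : SimpleGraph V) (w : V) :
    cp G = (X - C (deg G w : ℝ)) * cp (del G w) + ∑ p ∈ prs G w (lab V), cp (mm G w (lab V) p) := by
  apply poly_ext
  intro N
  have h := cnt_rec G w (lab V) lab_inj N
  have h' : (cnt G N : ℝ) + deg G w * cnt (del G w) N =
      N * cnt (del G w) N + ∑ p ∈ prs G w (lab V), (cnt (mm G w (lab V) p) N : ℝ) := by
    exact_mod_cast h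
  simp only [eval_add, eval_mul, eval_sub, eval_X, eval_C, eval_finsetSum, cp_eval]
  linarith

lemma cp_of_isEmpty {V : Type} [Fintype V] (G : SimpleGraph V) (hE : IsEmpty V) : cp G = 1 := by
  apply poly_ext
  intro N
  rw [cp_eval]
  have : cnt G N = 1 := by
    unfold cnt
    rw [Finset.card_eq_one]
    refine ⟨fun v => (hE.false v).elim, ?_⟩
    ext c
    rw [mem_cols, Finset.mem_singleton]
    constructor
    · intro _; ext v; exact (hE.false v).elim
    · intro _ x; exact (hE.false x).elim
  rw [this]; simp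

lemma cnt_five {V : Type} [Fintype V] (G : SimpleGraph V) : (cp G).eval 5 = (cnt G 5 : ℝ) := by
  have := cp_eval G 5
  simpa using this

open scoped Classical in
/-- the recursion at `5` -/
lemma rec_five {V : Type} [Fintype V] (G : SimpleGraph V) (w : V) :
    (cnt G 5 : ℝ) = (5 - deg G w) * cnt (del G w) 5 +
      ∑ p ∈ prs G w (lab V), (cnt (mm G w (lab V) p) 5 : ℝ) := by
  have h := congrArg (eval (5 : ℝ)) (cp_rec G w)
  simp only [eval_add, eval_mul, eval_sub, eval_X, eval_C, eval_finsetSum, cnt_five] at h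
  exact h

open scoped Classical in
lemma rec_eval {V : Type} [Fintype V] (G : SimpleGraph V) (w : V) (q : ℝ) :
    (cp G).eval q = (q - deg G w) * (cp (del G w)).eval q +
      ∑ p ∈ prs G w (lab V), (cp (mm G w (lab V) p)).eval q := by
  have h := congrArg (eval q) (cp_rec G w)
  simp only [eval_add, eval_mul, eval_sub, eval_X, eval_C, eval_finsetSum] at h
  exact h

open scoped Classical in
theorem cnt_pos : ∀ (n : ℕ) (V : Type) [Fintype V] (G : SimpleGraph V), Fintype.card V = n →
    K5Free G → 0 < cnt G 5 := by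
  intro n
  induction n using Nat.strong_induction_on with
  | _ n ih =>
  intro V _ G hV hG
  rcases isEmpty_or_nonempty V with hE | hN
  · have h1 := cnt_five G
    rw [cp_of_isEmpty G hE] at h1
    simp only [eval_one] at h1
    have : (0 : ℝ) < (cnt G 5 : ℝ) := by rw [← h1]; norm_num
    exact_mod_cast this
  · obtain ⟨w, hw⟩ := exists_deg_le_five G hG
    have hcd := card_del w
    have h1 := ih _ (by omega) {x : V // x ≠ w} (del G w) rfl (hG.minor (isMinor_del G w))
    have h2 := cnt_del_le G w hG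
    rcases Nat.lt_or_ge (deg G w) 5 with h | h
    · have := h2.2 (by omega)
      omega
    · have := h2.1 (by omega)
      omega

open scoped Classical in
/-- The main estimate just below `5`. -/
theorem main_real (x : ℝ) (hx0 : 0 ≤ x) (hx1 : x ≤ 1) :
    ∀ (n : ℕ) (V : Type) [Fintype V] (G : SimpleGraph V), Fintype.card V = n →
    K5Free G → 3 / 4 * (n : ℝ) * x ≤ 1 →
    (1 - 3 / 4 * (n : ℝ) * x) * cnt G 5 ≤ (cp G).eval (5 - x) ∧
      (cp G).eval (5 - x) ≤ cnt G 5 := by
  intro n
  induction n using Nat.strong_induction_on with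
  | _ n ih =>
  intro V _ G hV hG hnx
  rcases isEmpty_or_nonempty V with hE | hN
  · have h1 := cnt_five G
    rw [cp_of_isEmpty G hE] at h1 ⊢
    simp only [eval_one] at h1 ⊢
    rw [← h1]
    have hn0 : n = 0 := by rw [← hV]; exact Fintype.card_eq_zero
    subst hn0
    simp
  · obtain ⟨w, hw⟩ := exists_deg_le_five G hG
    have hcd := card_del w
    have hn1 : ((Fintype.card {x : V // x ≠ w} : ℕ) : ℝ) = (n : ℝ) - 1 := by
      have : Fintype.card {x : V // x ≠ w} + 1 = n := by omega
      rw [← this]; push_cast; ring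
    have hposn : (0 : ℝ) ≤ (Fintype.card {x : V // x ≠ w} : ℕ) := Nat.cast_nonneg _
    rw [hn1] at hposn
    have hA := ih _ (by omega) {x : V // x ≠ w} (del G w) rfl (hG.minor (isMinor_del G w))
      (by rw [hn1]; nlinarith)
    rw [hn1] at hA
    have hM : ∀ p ∈ prs G w (lab V),
        (1 - 3 / 4 * ((n : ℝ) - 2) * x) * (cnt (mm G w (lab V) p) 5 : ℝ) ≤
          (cp (mm G w (lab V) p)).eval (5 - x) ∧
        (cp (mm G w (lab V) p)).eval (5 - x) ≤ (cnt (mm G w (lab V) p) 5 : ℝ) := by
      intro p hp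
      have hc := card_mm w p.2
      have hn2 : ((Fintype.card {x : {x : V // x ≠ w} // x ≠ p.2} : ℕ) : ℝ) = (n : ℝ) - 2 := by
        have : Fintype.card {x : {x : V // x ≠ w} // x ≠ p.2} + 2 = n := by omega
        rw [← this]; push_cast; ring
      have := ih _ (by omega) _ (mm G w (lab V) p) rfl (hG.minor (isMinor_mm G w (lab V) p hp))
        (by rw [hn2]; nlinarith)
      rw [hn2] at this
      exact this
    have hML : (1 - 3 / 4 * ((n : ℝ) - 2) * x) * ∑ p ∈ prs G w (lab V),
        (cnt (mm G w (lab V) p) 5 : ℝ) ≤ ∑ p ∈ prs G w (lab V),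
          (cp (mm G w (lab V) p)).eval (5 - x) := by
      rw [Finset.mul_sum]
      exact Finset.sum_le_sum (fun p hp => (hM p hp).1)
    have hMU : ∑ p ∈ prs G w (lab V), (cp (mm G w (lab V) p)).eval (5 - x) ≤
        ∑ p ∈ prs G w (lab V), (cnt (mm G w (lab V) p) 5 : ℝ) :=
      Finset.sum_le_sum (fun p hp => (hM p hp).2)
    have hB0 : 0 ≤ ∑ p ∈ prs G w (lab V), (cnt (mm G w (lab V) p) 5 : ℝ) :=
      Finset.sum_nonneg (fun p _ => Nat.cast_nonneg _)
    have hA0 : (0 : ℝ) ≤ (cnt (del G w) 5 : ℝ) := Nat.cast_nonneg _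
    have h5 := rec_five G w
    have hq := rec_eval G w (5 - x)
    have hdel := cnt_del_le G w hG
    rw [hq]
    set P : ℝ := (cnt G 5 : ℝ) with hP
    set A : ℝ := (cnt (del G w) 5 : ℝ) with hAd
    set B : ℝ := ∑ p ∈ prs G w (lab V), (cnt (mm G w (lab V) p) 5 : ℝ) with hB
    set a : ℝ := (cp (del G w)).eval (5 - x) with ha
    set b : ℝ := ∑ p ∈ prs G w (lab V), (cp (mm G w (lab V) p)).eval (5 - x) with hb
    obtain ⟨hA1, hA2⟩ := hA
    have hP0 : 0 ≤ P := Nat.cast_nonneg _
    have ht1 : 3 / 4 * ((n : ℝ) - 1) * x ≤ 1 := by nlinarith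
    have ht0 : 0 ≤ 3 / 4 * ((n : ℝ) - 1) * x := by positivity
    have ha0 : 0 ≤ a := le_trans (mul_nonneg (by linarith) hA0) hA1
    rcases Nat.lt_or_ge (deg G w) 5 with h | h
    · -- degree at most four
      have hk : (deg G w : ℝ) ≤ 4 := by exact_mod_cast (by omega : deg G w ≤ 4)
      have hAP : A ≤ 3 / 4 * P := by
        have h1 := hdel.2 (by omega)
        have h2 : 4 * A ≤ 3 * P := by rw [hAd, hP]; exact_mod_cast h1
        linarith
      have hc0 : 0 ≤ 5 - x - (deg G w : ℝ) := by linarith
      constructor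
      · have e1 : (5 - x - (deg G w : ℝ)) * ((1 - 3 / 4 * ((n : ℝ) - 1) * x) * A) ≤
            (5 - x - (deg G w : ℝ)) * a := mul_le_mul_of_nonneg_left hA1 hc0
        have e2 : (1 - 3 / 4 * ((n : ℝ) - 1) * x) * B ≤ (1 - 3 / 4 * ((n : ℝ) - 2) * x) * B := by
          apply mul_le_mul_of_nonneg_right _ hB0
          nlinarith
        have e3 : 0 ≤ (3 / 4 * ((n : ℝ) - 1) * x) * (x * A) := by positivity
        have e4 : x * A ≤ 3 / 4 * x * P := by nlinarith
        nlinarith
      · have e1 : (5 - x - (deg G w : ℝ)) * a ≤ (5 - x - (deg G w : ℝ)) * A :=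
          mul_le_mul_of_nonneg_left hA2 hc0
        nlinarith
    · -- degree five
      have hk : (deg G w : ℝ) = 5 := by exact_mod_cast (by omega : deg G w = 5)
      have hAP : A ≤ 3 / 2 * P := by
        have h1 := hdel.1 (by omega)
        have h2 : 2 * A ≤ 3 * P := by rw [hAd, hP]; exact_mod_cast h1
        linarith
      rw [hk] at h5 ⊢
      have hBP : B = P := by linarith
      rw [hBP] at hML hMU
      constructor
      · have e1 : x * a ≤ x * A := mul_le_mul_of_nonneg_left hA2 hx0
        have e2 : x * A ≤ x * (3 / 2 * P) := mul_le_mul_of_nonneg_left hAP hx0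
        nlinarith
      · have e1 : 0 ≤ x * a := mul_nonneg hx0 ha0
        nlinarith

open scoped Classical in
/-- Positivity at and above `5` (Birkhoff-Lewis, Woodall). -/
theorem pos_above (q : ℝ) (hq : 5 ≤ q) :
    ∀ (n : ℕ) (V : Type) [Fintype V] (G : SimpleGraph V), Fintype.card V = n →
    K5Free G → 0 < (cp G).eval q := by
  rcases eq_or_lt_of_le hq with hq5 | hq5
  · intro n V _ G hV hG
    rw [← hq5, cnt_five]
    exact_mod_cast cnt_pos n V G hV hG
  intro n
  induction n using Nat.strong_induction_on with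
  | _ n ih =>
  intro V _ G hV hG
  rcases isEmpty_or_nonempty V with hE | hN
  · rw [cp_of_isEmpty G hE]; simp
  · obtain ⟨w, hw⟩ := exists_deg_le_five G hG
    have hcd := card_del w
    have h1 := ih _ (by omega) {x : V // x ≠ w} (del G w) rfl (hG.minor (isMinor_del G w))
    have h2 : 0 ≤ ∑ p ∈ prs G w (lab V), (cp (mm G w (lab V) p)).eval q := by
      apply Finset.sum_nonneg
      intro p hp
      have hc := card_mm w p.2
      exact (ih _ (by omega) _ (mm G w (lab V) p) rfl
        (hG.minor (isMinor_mm G w (lab V) p hp))).le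
    rw [rec_eval G w q]
    have hk : (deg G w : ℝ) ≤ 5 := by exact_mod_cast hw
    have : 0 < (q - deg G w) * (cp (del G w)).eval q := mul_pos (by linarith) h1
    linarith

/-- All minors of `G` with minimum degree at least five have at most `N` vertices. -/
def SmallCore {V : Type} (G : SimpleGraph V) (N : ℕ) : Prop :=
  ∀ (W : Type) [Finite W] (H : SimpleGraph W), IsMinor H G →
    (∀ w, 5 ≤ (H.neighborSet w).ncard) → Nat.card W ≤ N

lemma SmallCore.minor {V W : Type} {G : SimpleGraph V} {H : SimpleGraph W} {N : ℕ}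
    (h : SmallCore G N) (hm : IsMinor H G) : SmallCore H N := by
  intro U _ K hK hd
  exact h U K (hK.trans hm) hd

lemma ncard_neighborSet {V : Type} [Fintype V] (G : SimpleGraph V) (v : V) :
    (G.neighborSet v).ncard = deg G v := by
  classical
  unfold deg
  rw [Set.ncard_eq_toFinset_card']
  congr 1
  ext x
  simp

open scoped Classical in
theorem pos_core (N : ℕ) (hN2 : 2 ≤ N) (q : ℝ) (hq : 5 - 4 / (3 * (N : ℝ)) < q) :
    ∀ (n : ℕ) (V : Type) [Fintype V] (G : SimpleGraph V), Fintype.card V = n →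
    K5Free G → SmallCore G N → 0 < (cp G).eval q := by
  have hNpos : (2 : ℝ) ≤ N := by exact_mod_cast hN2
  have hq4 : 4 < q := by
    have : 4 / (3 * (N : ℝ)) ≤ 2 / 3 := by
      rw [div_le_iff₀ (by linarith)]
      linarith
    linarith
  intro n
  induction n using Nat.strong_induction_on with
  | _ n ih =>
  intro V _ G hV hG hS
  rcases isEmpty_or_nonempty V with hE | hNe
  · rw [cp_of_isEmpty G hE]; simp
  by_cases h4 : ∃ w, deg G w ≤ 4
  · obtain ⟨w, hw⟩ := h4
    have hcd := card_del w
    have h1 := ih _ (by omega) {x : V // x ≠ w} (del G w) rfl (hG.minor (isMinor_del G w))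
      (hS.minor (isMinor_del G w))
    have h2 : 0 ≤ ∑ p ∈ prs G w (lab V), (cp (mm G w (lab V) p)).eval q := by
      apply Finset.sum_nonneg
      intro p hp
      have hc := card_mm w p.2
      exact (ih _ (by omega) _ (mm G w (lab V) p) rfl
        (hG.minor (isMinor_mm G w (lab V) p hp)) (hS.minor (isMinor_mm G w (lab V) p hp))).le
    rw [rec_eval G w q]
    have hk : (deg G w : ℝ) ≤ 4 := by exact_mod_cast hw
    have : 0 < (q - deg G w) * (cp (del G w)).eval q := mul_pos (by linarith) h1
    linarith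
  · push Not at h4
    have hcard : n ≤ N := by
      have := hS V G (IsMinor.refl G) (fun w => by rw [ncard_neighborSet]; exact h4 w)
      rw [Nat.card_eq_fintype_card, hV] at this
      exact this
    rcases le_or_gt 5 q with h5 | h5
    · exact pos_above q h5 n V G hV hG
    · have hn0 : 0 < n := by rw [← hV]; exact Fintype.card_pos
      have hnr : (n : ℝ) ≤ N := by exact_mod_cast hcard
      have hx : 3 / 4 * (n : ℝ) * (5 - q) < 1 := by
        have h1 : (5 - q) * (3 * (N : ℝ)) < 4 := by
          have : 5 - q < 4 / (3 * (N : ℝ)) := by linarith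
          rwa [lt_div_iff₀ (by linarith)] at this
        nlinarith
      have h := (main_real (5 - q) (by linarith) (by linarith) n V G hV hG hx.le).1
      have hc : (0 : ℝ) < cnt G 5 := by exact_mod_cast cnt_pos n V G hV hG
      have e : 5 - (5 - q) = q := by ring
      rw [e] at h
      have : 0 < (1 - 3 / 4 * (n : ℝ) * (5 - q)) * cnt G 5 := mul_pos (by linarith) hc
      linarith

open scoped Classical in
/-- All derivatives at `5` are nonnegative. -/
theorem coeff_nonneg : ∀ (n : ℕ) (V : Type) [Fintype V] (G : SimpleGraph V), Fintype.card V = n →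
    K5Free G → ∀ i, 0 ≤ ((cp G).comp (X + C 5)).coeff i := by
  intro n
  induction n using Nat.strong_induction_on with
  | _ n ih =>
  intro V _ G hV hG i
  rcases isEmpty_or_nonempty V with hE | hN
  · rw [cp_of_isEmpty G hE]
    simp only [one_comp, coeff_one]
    split_ifs <;> norm_num
  · obtain ⟨w, hw⟩ := exists_deg_le_five G hG
    have hcd := card_del w
    have h1 := ih _ (by omega) {x : V // x ≠ w} (del G w) rfl (hG.minor (isMinor_del G w))
    rw [cp_rec G w]
    simp only [add_comp, mul_comp, sub_comp, X_comp, C_comp, Polynomial.sum_comp, coeff_add,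
      finsetSum_coeff]
    apply add_nonneg
    · have e : (X + C (5 : ℝ) - C (deg G w : ℝ)) = X + C (5 - (deg G w : ℝ)) := by
        rw [C_sub]; ring
      rw [e, add_mul, coeff_add, coeff_C_mul]
      apply add_nonneg
      · rcases i with _ | i
        · simp
        · rw [coeff_X_mul]; exact h1 i
      · apply mul_nonneg _ (h1 i)
        have : (deg G w : ℝ) ≤ 5 := by exact_mod_cast hw
        linarith
    · apply Finset.sum_nonneg
      intro p hp
      have hc := card_mm w p.2
      exact ih _ (by omega) _ (mm G w (lab V) p) rfl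
        (hG.minor (isMinor_mm G w (lab V) p hp)) i

open scoped Classical in
/-- Growth just above `5`. -/
theorem growth (r : ℝ) (hr : 0 ≤ r) : ∀ (n : ℕ) (V : Type) [Fintype V] (G : SimpleGraph V),
    Fintype.card V = n → K5Free G →
    (cp G).eval (5 + r) ≤ Real.exp (3 / 4 * (n : ℝ) * r) * cnt G 5 := by
  intro n
  induction n using Nat.strong_induction_on with
  | _ n ih =>
  intro V _ G hV hG
  rcases isEmpty_or_nonempty V with hE | hN
  · have h1 := cnt_five G
    rw [cp_of_isEmpty G hE] at h1 ⊢
    simp only [eval_one] at h1 ⊢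
    rw [← h1, mul_one]
    have hn0 : n = 0 := by rw [← hV]; exact Fintype.card_eq_zero
    subst hn0
    simp
  · obtain ⟨w, hw⟩ := exists_deg_le_five G hG
    have hcd := card_del w
    have hn1 : ((Fintype.card {x : V // x ≠ w} : ℕ) : ℝ) = (n : ℝ) - 1 := by
      have : Fintype.card {x : V // x ≠ w} + 1 = n := by omega
      rw [← this]; push_cast; ring
    have hA := ih _ (by omega) {x : V // x ≠ w} (del G w) rfl (hG.minor (isMinor_del G w))
    rw [hn1] at hA
    have hM : ∀ p ∈ prs G w (lab V), (cp (mm G w (lab V) p)).eval (5 + r) ≤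
        Real.exp (3 / 4 * ((n : ℝ) - 2) * r) * (cnt (mm G w (lab V) p) 5 : ℝ) := by
      intro p hp
      have hc := card_mm w p.2
      have hn2 : ((Fintype.card {x : {x : V // x ≠ w} // x ≠ p.2} : ℕ) : ℝ) = (n : ℝ) - 2 := by
        have : Fintype.card {x : {x : V // x ≠ w} // x ≠ p.2} + 2 = n := by omega
        rw [← this]; push_cast; ring
      have := ih _ (by omega) _ (mm G w (lab V) p) rfl (hG.minor (isMinor_mm G w (lab V) p hp))
      rw [hn2] at this
      exact this
    have hMU : ∑ p ∈ prs G w (lab V), (cp (mm G w (lab V) p)).eval (5 + r) ≤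
        Real.exp (3 / 4 * ((n : ℝ) - 2) * r) *
          ∑ p ∈ prs G w (lab V), (cnt (mm G w (lab V) p) 5 : ℝ) := by
      rw [Finset.mul_sum]
      exact Finset.sum_le_sum hM
    have hB0 : 0 ≤ ∑ p ∈ prs G w (lab V), (cnt (mm G w (lab V) p) 5 : ℝ) :=
      Finset.sum_nonneg (fun p _ => Nat.cast_nonneg _)
    have hA0 : (0 : ℝ) ≤ (cnt (del G w) 5 : ℝ) := Nat.cast_nonneg _
    have h5 := rec_five G w
    have hq := rec_eval G w (5 + r)
    have hdel := cnt_del_le G w hG
    rw [hq]
    set P : ℝ := (cnt G 5 : ℝ) with hP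
    set A : ℝ := (cnt (del G w) 5 : ℝ) with hAd
    set B : ℝ := ∑ p ∈ prs G w (lab V), (cnt (mm G w (lab V) p) 5 : ℝ) with hB
    set a : ℝ := (cp (del G w)).eval (5 + r) with ha
    set b : ℝ := ∑ p ∈ prs G w (lab V), (cp (mm G w (lab V) p)).eval (5 + r) with hb
    have hP0 : 0 ≤ P := Nat.cast_nonneg _
    set y : ℝ := 3 / 4 * r with hy
    have hy0 : 0 ≤ y := by positivity
    set L : ℝ := Real.exp (3 / 4 * ((n : ℝ) - 1) * r) with hL
    have hLpos : 0 < L := Real.exp_pos _
    have eU : Real.exp (3 / 4 * (n : ℝ) * r) = L * Real.exp y := by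
      rw [hL, ← Real.exp_add]; congr 1; rw [hy]; ring
    have eD : Real.exp (3 / 4 * ((n : ℝ) - 2) * r) = L * Real.exp (-y) := by
      rw [hL, ← Real.exp_add]; congr 1; rw [hy]; ring
    rw [eU]
    rw [eD] at hMU
    have hw5 : (deg G w : ℝ) ≤ 5 := by exact_mod_cast hw
    have e1 : (5 + r - (deg G w : ℝ)) * a ≤ (5 + r - (deg G w : ℝ)) * (L * A) :=
      mul_le_mul_of_nonneg_left hA (by linarith)
    rcases Nat.lt_or_ge (deg G w) 5 with h | h
    · -- degree at most four
      have hAP : A ≤ 3 / 4 * P := by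
        have h1 := hdel.2 (by omega)
        have h2 : 4 * A ≤ 3 * P := by rw [hAd, hP]; exact_mod_cast h1
        linarith
      have e2 : L * Real.exp (-y) * B ≤ L * B := by
        apply mul_le_mul_of_nonneg_right _ hB0
        have : Real.exp (-y) ≤ 1 := Real.exp_le_one_iff.mpr (by linarith)
        nlinarith
      have e3 : 1 + y ≤ Real.exp y := by linarith [Real.add_one_le_exp y]
      have e4 : r * A ≤ y * P := by rw [hy]; nlinarith
      have e5 : (5 + r - (deg G w : ℝ)) * (L * A) + L * B = L * (P + r * A) := by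
        rw [h5]; ring
      have e6 : P + r * A ≤ Real.exp y * P := by nlinarith
      have e7 : L * (P + r * A) ≤ L * (Real.exp y * P) := mul_le_mul_of_nonneg_left e6 hLpos.le
      nlinarith
    · -- degree five
      have hk : (deg G w : ℝ) = 5 := by exact_mod_cast (by omega : deg G w = 5)
      have hAP : A ≤ 3 / 2 * P := by
        have h1 := hdel.1 (by omega)
        have h2 : 2 * A ≤ 3 * P := by rw [hAd, hP]; exact_mod_cast h1
        linarith
      rw [hk] at h5 e1 ⊢
      have hBP : B = P := by linarith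
      rw [hBP] at hMU
      have e2 : r * A ≤ 2 * y * P := by rw [hy]; nlinarith
      have e3 : 2 * y + Real.exp (-y) ≤ Real.exp y := by
        have := Real.self_le_sinh_iff.mpr hy0
        rw [Real.sinh_eq] at this
        linarith
      have e5 : (5 + r - 5) * (L * A) + L * Real.exp (-y) * P = L * (r * A + Real.exp (-y) * P) := by
        ring
      have e6 : r * A + Real.exp (-y) * P ≤ Real.exp y * P := by nlinarith
      have e7 : L * (r * A + Real.exp (-y) * P) ≤ L * (Real.exp y * P) :=
        mul_le_mul_of_nonneg_left e6 hLpos.le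
      nlinarith

/-- A polynomial with nonnegative Taylor coefficients at `5`. -/
lemma norm_sub_le (p : ℝ[X]) (hp : ∀ i, 0 ≤ (p.comp (X + C 5)).coeff i) (z : ℂ) :
    ‖aeval z p - ((p.eval 5 : ℝ) : ℂ)‖ ≤ p.eval (5 + ‖z - 5‖) - p.eval 5 := by
  set s := p.comp (X + C 5) with hs
  have h1 : ∀ t : ℂ, aeval (t + 5) p = aeval t s := by
    intro t
    rw [hs, aeval_comp]
    congr 1
    simp
  have h2 : ∀ t : ℝ, p.eval (5 + t) = s.eval t := by
    intro t
    rw [hs, eval_comp]
    congr 1
    simp [add_comm]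
  have h3 : p.eval 5 = s.coeff 0 := by
    have := h2 0
    rw [add_zero] at this
    rw [this, coeff_zero_eq_eval_zero]
  have h4 : aeval z p = aeval (z - 5) s := by
    rw [← h1, sub_add_cancel]
  rw [h4, h2, h3]
  set t := z - 5
  have h5 : aeval t s - ((s.coeff 0 : ℝ) : ℂ) =
      ∑ i ∈ Finset.range s.natDegree, ((s.coeff (i + 1) : ℝ) : ℂ) * t ^ (i + 1) := by
    rw [aeval_eq_sum_range, Finset.sum_range_succ']
    simp [Complex.real_smul]
  have h6 : s.eval ‖t‖ - s.coeff 0 =
      ∑ i ∈ Finset.range s.natDegree, s.coeff (i + 1) * ‖t‖ ^ (i + 1) := by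
    rw [eval_eq_sum_range, Finset.sum_range_succ']
    simp
  rw [h5, h6]
  refine le_trans (norm_sum_le _ _) ?_
  apply Finset.sum_le_sum
  intro i _
  rw [norm_mul, norm_pow, Complex.norm_real, Real.norm_of_nonneg (hp _)]

theorem disc_ne_zero {V : Type} [Fintype V] (G : SimpleGraph V) (hG : K5Free G) (z : ℂ)
    (hz : 3 / 4 * (Fintype.card V : ℝ) * ‖z - 5‖ < Real.log 2) : aeval z (cp G) ≠ 0 := by
  intro h0
  have h1 := norm_sub_le (cp G) (coeff_nonneg _ V G rfl hG) z
  rw [h0, zero_sub, norm_neg, Complex.norm_real, cnt_five] at h1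
  have hc : (0 : ℝ) < cnt G 5 := by exact_mod_cast cnt_pos _ V G rfl hG
  rw [Real.norm_of_nonneg hc.le] at h1
  have h2 := growth ‖z - 5‖ (norm_nonneg _) _ V G rfl hG
  have h3 : Real.exp (3 / 4 * (Fintype.card V : ℝ) * ‖z - 5‖) < 2 := by
    have := Real.exp_lt_exp.mpr hz
    rwa [Real.exp_log (by norm_num)] at this
  nlinarith

end Pool.Agent.Helper36.BL
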