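import Pool.Agent.Helper36.BL.Edge
import Pool.Agent.Helper20.RPDefs

/-!
# Counting colourings: deletion of a vertex
-/

set_option autoImplicit false

namespace Pool.Agent.Helper36.BL

open SimpleGraph Finset

section

variable {V : Type} [Fintype V]

open scoped Classical in
/-- the set of proper `N`-colourings -/
noncomputable def cols (G : SimpleGraph V) (N : ℕ) : Finset (V → Fin N) :=
  Finset.univ.filter (fun c => ∀ x y, G.Adj x y → c x ≠ c y)

/-- the number of proper `N`-colourings -/
noncomputable def cnt (G : SimpleGraph V) (N : ℕ) : ℕ := (cols G N).card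

omit [Fintype V] in
lemma cnt_inst (i1 i2 : Fintype V) (G : SimpleGraph V) (N : ℕ) :
    @cnt V i1 G N = @cnt V i2 G N := by rw [Subsingleton.elim i1 i2]

lemma mem_cols (G : SimpleGraph V) (N : ℕ) (c : V → Fin N) :
    c ∈ cols G N ↔ ∀ x y, G.Adj x y → c x ≠ c y := by
  simp [cols]

lemma natCard_coloring (G : SimpleGraph V) (N : ℕ) :
    Nat.card (G.Coloring (Fin N)) = cnt G N := by
  classical
  have e : G.Coloring (Fin N) ≃ {c : V → Fin N // c ∈ cols G N} :=
    { toFun := fun C => ⟨C, by rw [mem_cols]; intro x y h; exact C.valid h⟩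
      invFun := fun c => Coloring.mk c.1 (fun {x y} h => (mem_cols G N c.1).mp c.2 x y h)
      left_inv := fun C => by ext x; rfl
      right_inv := fun c => by ext x; rfl }
  rw [Nat.card_congr e, Nat.card_eq_fintype_card, Fintype.card_coe]
  rfl

open scoped Classical in
/-- indicator -/
noncomputable def ind (P : Prop) : ℕ := if P then 1 else 0

lemma card_filter_ind {α : Type} (s : Finset α) (P : α → Prop) [DecidablePred P] :
    (s.filter P).card = ∑ x ∈ s, ind (P x) := by
  rw [Finset.card_filter]
  apply Finset.sum_congr rfl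
  intro x _
  unfold ind
  by_cases h : P x <;> simp [h]

lemma ind_congr {P Q : Prop} (h : P ↔ Q) : ind P = ind Q := by rw [propext h]

/-- `a < b` have equal values and no value strictly in between is the same -/
def E {ι κ : Type} (S : Finset ι) (f : ι → ℕ) (c : ι → κ) (p : ι × ι) : Prop :=
  c p.1 = c p.2 ∧ ∀ m ∈ S, f p.1 < f m → f m < f p.2 → c m ≠ c p.1

/-- ordered pairs -/
def lp {ι : Type} (S : Finset ι) (f : ι → ℕ) : Finset (ι × ι) :=
  (S ×ˢ S).filter (fun p => f p.1 < f p.2)

lemma mem_lp {ι : Type} (S : Finset ι) (f : ι → ℕ) (p : ι × ι) :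
    p ∈ lp S f ↔ (p.1 ∈ S ∧ p.2 ∈ S) ∧ f p.1 < f p.2 := by
  unfold lp
  rw [Finset.mem_filter, Finset.mem_product]

open scoped Classical in
/-- pairs `(a, b)` of indices with equal value and no equal value strictly between -/
lemma card_pairs {ι κ : Type} [inst : DecidableEq κ] (S : Finset ι) (f : ι → ℕ)
    (hf : Function.Injective f) (c : ι → κ) :
    S.card = (S.image c).card + ∑ p ∈ lp S f, ind (E S f c p) := by
  have h1 : S.card = (S.filter (fun b => ∀ j ∈ S, f j < f b → c j ≠ c b)).card +
      (S.filter (fun b => ¬ ∀ j ∈ S, f j < f b → c j ≠ c b)).card :=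
    (Finset.card_filter_add_card_filter_not _).symm
  have h2 : (S.filter (fun b => ∀ j ∈ S, f j < f b → c j ≠ c b)).card = (S.image c).card := by
    have : (S.filter (fun b => ∀ j ∈ S, f j < f b → c j ≠ c b)).image c = S.image c := by
      apply Finset.Subset.antisymm
      · exact Finset.image_subset_image (Finset.filter_subset _ _)
      · intro y hy
        obtain ⟨x, hx, hxy⟩ := Finset.mem_image.mp hy
        have hne : (S.filter (fun z => c z = y)).Nonempty := ⟨x, Finset.mem_filter.mpr ⟨hx, hxy⟩⟩
        obtain ⟨z, hz, hzm⟩ := Finset.exists_min_image _ f hne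
        rw [Finset.mem_filter] at hz
        refine Finset.mem_image.mpr ⟨z, Finset.mem_filter.mpr ⟨hz.1, ?_⟩, hz.2⟩
        intro j hj hlt heq
        have := hzm j (Finset.mem_filter.mpr ⟨hj, heq.trans hz.2⟩)
        omega
    rw [← this, Finset.card_image_of_injOn]
    intro x hx y hy hxy
    rw [Finset.mem_coe, Finset.mem_filter] at hx hy
    apply hf
    by_contra hne
    rcases lt_or_gt_of_ne hne with h | h
    · exact hy.2 x hx.1 h hxy
    · exact hx.2 y hy.1 h hxy.symm
  have h3 : (S.filter (fun b => ¬ ∀ j ∈ S, f j < f b → c j ≠ c b)).card =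
      ((lp S f).filter (fun p => E S f c p)).card := by
    symm
    apply Finset.card_bij (fun p _ => p.2)
    · rintro ⟨a, b⟩ hp
      rw [Finset.mem_filter, mem_lp] at hp
      rw [Finset.mem_filter]
      obtain ⟨⟨⟨ha, hb⟩, hlt⟩, heq, hm⟩ := hp
      exact ⟨hb, fun hall => hall a ha hlt heq⟩
    · rintro ⟨a, b⟩ hp ⟨a', b'⟩ hp' hbb
      rw [Finset.mem_filter, mem_lp] at hp hp'
      obtain ⟨⟨⟨ha, hb⟩, hlt⟩, heq, hm⟩ := hp
      obtain ⟨⟨⟨ha', hb'⟩, hlt'⟩, heq', hm'⟩ := hp'
      simp only at ha hb hlt heq hm ha' hb' hlt' heq' hm' hbb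
      subst hbb
      have : a = a' := by
        apply hf
        by_contra hne
        rcases lt_or_gt_of_ne hne with h | h
        · exact hm a' ha' h hlt' (heq'.trans heq.symm)
        · exact hm' a ha h hlt (heq.trans heq'.symm)
      rw [this]
    · intro b hb
      simp only [Finset.mem_filter] at hb
      obtain ⟨hb, hex⟩ := hb
      push Not at hex
      obtain ⟨j, hj, hlt, heq⟩ := hex
      have hne : (S.filter (fun z => f z < f b ∧ c z = c b)).Nonempty :=
        ⟨j, Finset.mem_filter.mpr ⟨hj, hlt, heq⟩⟩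
      obtain ⟨z, hz, hzm⟩ := Finset.exists_max_image _ f hne
      rw [Finset.mem_filter] at hz
      refine ⟨(z, b), ?_, rfl⟩
      rw [Finset.mem_filter, mem_lp]
      refine ⟨⟨⟨hz.1, hb⟩, hz.2.1⟩, hz.2.2, ?_⟩
      intro m hm h1 h2 h3
      have := hzm m (Finset.mem_filter.mpr ⟨hm, h2, h3.trans hz.2.2⟩)
      simp only at h1
      omega
  have h4 := card_filter_ind (lp S f) (fun p => E S f c p)
  omega

open scoped Classical in
/-- the neighbourhood of `w` as a set of vertices of `G - w` -/
noncomputable def nb (G : SimpleGraph V) (w : V) : Finset {x : V // x ≠ w} :=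
  Finset.univ.filter (fun x => G.Adj w x)

lemma mem_nb (G : SimpleGraph V) (w : V) (x : {x : V // x ≠ w}) : x ∈ nb G w ↔ G.Adj w x := by
  simp [nb]

lemma card_nb (G : SimpleGraph V) (w : V) : (nb G w).card = deg G w := by
  classical
  unfold nb deg
  rw [card_filter_subtype_ne w (fun x => G.Adj w x)]
  congr 1
  ext x
  simp only [Finset.mem_filter, Finset.mem_univ, true_and]
  exact ⟨fun h => h.2, fun h => ⟨h.ne', h⟩⟩

open scoped Classical in
/-- colours available at `w` -/
noncomputable def avail (G : SimpleGraph V) (w : V) (N : ℕ) (c : {x : V // x ≠ w} → Fin N) :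
    Finset (Fin N) := Finset.univ.filter (fun x => ∀ s ∈ nb G w, c s ≠ x)

open scoped Classical in
lemma card_avail (G : SimpleGraph V) (w : V) (N : ℕ) (c : {x : V // x ≠ w} → Fin N) :
    (avail G w N c).card + ((nb G w).image c).card = N := by
  have : avail G w N c = ((nb G w).image c)ᶜ := by
    ext x
    simp only [avail, Finset.mem_filter, Finset.mem_univ, true_and, Finset.mem_compl,
      Finset.mem_image, not_exists, not_and]
  rw [this, Finset.card_compl, Fintype.card_fin]
  have := Finset.card_le_univ ((nb G w).image c)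
  rw [Fintype.card_fin] at this
  omega

open scoped Classical in
lemma cnt_eq_sum_avail (G : SimpleGraph V) (w : V) (N : ℕ) :
    cnt G N = ∑ c ∈ cols (del G w) N, (avail G w N c).card := by
  unfold cnt
  rw [Finset.card_eq_sum_card_fiberwise (f := fun (c : V → Fin N) (x : {x : V // x ≠ w}) => c x)
    (t := cols (del G w) N)]
  · apply Finset.sum_congr rfl
    intro c hc
    rw [mem_cols] at hc
    apply Finset.card_bij (fun (d : V → Fin N) _ => d w)
    · intro d hd
      simp only [Finset.mem_filter] at hd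
      obtain ⟨hd, hdc⟩ := hd
      rw [mem_cols] at hd
      simp only [avail, Finset.mem_filter, Finset.mem_univ, true_and]
      intro s hs
      rw [mem_nb] at hs
      have := congrFun hdc s
      rw [← this]
      exact (hd w s hs).symm
    · intro d hd d' hd' h
      simp only [Finset.mem_filter] at hd hd'
      ext x
      by_cases hx : x = w
      · rw [hx, h]
      · have h1 := congrFun hd.2 ⟨x, hx⟩
        have h2 := congrFun hd'.2 ⟨x, hx⟩
        simp only at h1 h2
        rw [h1, h2]
    · intro x hx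
      simp only [avail, Finset.mem_filter, Finset.mem_univ, true_and] at hx
      refine ⟨fun v => if h : v = w then x else c ⟨v, h⟩, ?_, by simp⟩
      simp only [Finset.mem_filter]
      refine ⟨?_, ?_⟩
      · rw [mem_cols]
        intro u v huv
        by_cases hu : u = w
        · have hv : v ≠ w := fun h => huv.ne (hu.trans h.symm)
          rw [dif_pos hu, dif_neg hv]
          apply Ne.symm
          apply hx
          rw [mem_nb]
          exact hu ▸ huv
        · by_cases hv : v = w
          · rw [dif_neg hu, dif_pos hv]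
            apply hx
            rw [mem_nb]
            exact hv ▸ huv.symm
          · rw [dif_neg hu, dif_neg hv]
            exact hc ⟨u, hu⟩ ⟨v, hv⟩ huv
      · ext v
        simp [v.2]
  · intro c hc
    simp only [Finset.mem_coe] at hc ⊢
    rw [mem_cols] at hc ⊢
    intro x y hxy
    exact hc x y hxy

/-- the extra neighbours of the merged vertex -/
def Fset (G : SimpleGraph V) (w : V) (f : V → ℕ) (a b : {x : V // x ≠ w}) : Set {x : V // x ≠ w} :=
  {m | G.Adj w m ∧ f a < f m ∧ f m < f b}

open scoped Classical in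
/-- the index set in the recursion -/
noncomputable def prs (G : SimpleGraph V) (w : V) (f : V → ℕ) :
    Finset ({x : V // x ≠ w} × {x : V // x ≠ w}) :=
  Finset.univ.filter (fun p => (G.Adj w p.1 ∧ G.Adj w p.2 ∧ f p.1 < f p.2) ∧ ¬ G.Adj p.1 p.2)

lemma mem_prs (G : SimpleGraph V) (w : V) (f : V → ℕ) (p : {x : V // x ≠ w} × {x : V // x ≠ w}) :
    p ∈ prs G w f ↔ (G.Adj w p.1 ∧ G.Adj w p.2 ∧ f p.1 < f p.2) ∧ ¬ G.Adj p.1 p.2 := by
  simp [prs]

/-- the graphs in the recursion -/
def mm (G : SimpleGraph V) (w : V) (f : V → ℕ) (p : {x : V // x ≠ w} × {x : V // x ≠ w}) :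
    SimpleGraph {x : {x : V // x ≠ w} // x ≠ p.2} :=
  mg (del G w) p.1 p.2 (Fset G w f p.1 p.2)

open scoped Classical in
lemma cnt_mg (H : SimpleGraph V) (a b : V) (F : Set V) (hab : a ≠ b) (hna : ¬ H.Adj a b)
    (haF : a ∉ F) (hbF : b ∉ F) (N : ℕ) :
    cnt (mg H a b F) N =
      ((cols H N).filter (fun c => c a = c b ∧ ∀ m ∈ F, c m ≠ c a)).card := by
  symm
  unfold cnt
  apply Finset.card_bij (fun (c : V → Fin N) _ => fun x : {x : V // x ≠ b} => c x)
  · intro c hc
    simp only [Finset.mem_filter] at hc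
    obtain ⟨hc, hcab, hcF⟩ := hc
    rw [mem_cols] at hc ⊢
    intro x y hxy
    rw [mg_adj] at hxy
    obtain ⟨hne, h | ⟨hx, h | h⟩ | ⟨hy, h | h⟩⟩ := hxy
    · exact hc x y h
    · rw [hx, hcab]; exact hc b y h
    · rw [hx]; exact (hcF y h).symm
    · rw [hy, hcab]; exact (hc b x h).symm
    · rw [hy]; exact hcF x h
  · intro c hc d hd h
    simp only [Finset.mem_filter] at hc hd
    have h' : ∀ x, x ≠ b → c x = d x := fun x hx => congrFun h ⟨x, hx⟩
    ext x
    by_cases hx : x = b
    · rw [hx, ← hc.2.1, ← hd.2.1, h' a hab]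
    · rw [h' x hx]
  · intro d hd
    rw [mem_cols] at hd
    refine ⟨fun x => if h : x = b then d ⟨a, hab⟩ else d ⟨x, h⟩, ?_, ?_⟩
    · simp only [Finset.mem_filter]
      rw [mem_cols]
      have ha : (if h : a = b then d ⟨a, hab⟩ else d ⟨a, h⟩) = d ⟨a, hab⟩ := by
        rw [dif_neg hab]
      refine ⟨?_, ?_, ?_⟩
      · intro x y hxy
        by_cases hx : x = b
        · have hy : y ≠ b := fun h => hxy.ne (hx.trans h.symm)
          rw [dif_pos hx, dif_neg hy]
          apply hd
          rw [mg_adj]
          rw [hx] at hxy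
          refine ⟨?_, Or.inr (Or.inl ⟨rfl, Or.inl hxy⟩)⟩
          intro h
          have hay : a = y := congrArg Subtype.val h
          exact hna (hay ▸ hxy.symm)
        · by_cases hy : y = b
          · rw [dif_neg hx, dif_pos hy]
            apply hd
            rw [mg_adj]
            rw [hy] at hxy
            refine ⟨?_, Or.inr (Or.inr ⟨rfl, Or.inl hxy.symm⟩)⟩
            intro h
            have hxa : x = a := congrArg Subtype.val h
            exact hna (hxa ▸ hxy)
          · rw [dif_neg hx, dif_neg hy]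
            apply hd
            rw [mg_adj]
            exact ⟨fun h => hxy.ne (congrArg Subtype.val h), Or.inl hxy⟩
      · rw [ha]; simp
      · intro m hm
        have hmb : m ≠ b := fun h => hbF (h ▸ hm)
        rw [ha, dif_neg hmb]
        apply hd
        rw [mg_adj]
        refine ⟨fun h => haF ?_, Or.inr (Or.inr ⟨rfl, Or.inr hm⟩)⟩
        have : m = a := congrArg Subtype.val h
        exact this ▸ hm
    · ext x
      simp [x.2]

open scoped Classical in
/-- The fundamental recursion (counting form). -/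
theorem cnt_rec (G : SimpleGraph V) (w : V) (f : V → ℕ) (hf : Function.Injective f) (N : ℕ) :
    cnt G N + deg G w * cnt (del G w) N =
      N * cnt (del G w) N + ∑ p ∈ prs G w f, cnt (mm G w f p) N := by
  have hf' : Function.Injective (fun x : {x : V // x ≠ w} => f x) :=
    fun x y h => Subtype.ext (hf h)
  set S := nb G w with hS
  set g : {x : V // x ≠ w} → ℕ := fun x => f x with hg
  have key : ∀ c : {x : V // x ≠ w} → Fin N,
      (avail G w N c).card + deg G w = N + ∑ p ∈ lp S g, ind (E S g c p) := by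
    intro c
    have h1 := card_avail G w N c
    have h2 := card_pairs S g hf' c
    have h3 : S.card = deg G w := card_nb G w
    rw [hS] at h2 h3 ⊢
    rw [h3] at h2
    omega
  have h1 : ∑ c ∈ cols (del G w) N, ((avail G w N c).card + deg G w) =
      cnt G N + deg G w * cnt (del G w) N := by
    rw [Finset.sum_add_distrib, ← cnt_eq_sum_avail, Finset.sum_const, smul_eq_mul]
    unfold cnt
    ring
  rw [← h1, Finset.sum_congr rfl (fun c _ => key c), Finset.sum_add_distrib, Finset.sum_const,
    smul_eq_mul]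
  have h2 : (cols (del G w) N).card * N = N * cnt (del G w) N := by
    unfold cnt; ring
  rw [h2]
  congr 1
  rw [Finset.sum_comm]
  have hsub : prs G w f ⊆ lp S g := by
    intro p hp
    rw [mem_prs] at hp
    rw [mem_lp, hS, mem_nb, mem_nb]
    exact ⟨⟨hp.1.1, hp.1.2.1⟩, hp.1.2.2⟩
  rw [← Finset.sum_subset hsub]
  · apply Finset.sum_congr rfl
    intro p hp
    rw [mem_prs] at hp
    have hne : p.1 ≠ p.2 := fun h => by
      have := hp.1.2.2
      rw [h] at this
      exact lt_irrefl _ this
    have h3 := cnt_mg (del G w) p.1 p.2 (Fset G w f p.1 p.2) hne hp.2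
      (fun h : p.1 ∈ Fset G w f p.1 p.2 => lt_irrefl _ h.2.1)
      (fun h : p.2 ∈ Fset G w f p.1 p.2 => lt_irrefl _ h.2.2) N
    unfold mm
    refine Eq.trans ?_ (h3.symm.trans (cnt_inst _ _ _ _))
    rw [card_filter_ind]
    apply Finset.sum_congr rfl
    intro c _
    apply ind_congr
    constructor
    · rintro ⟨h1, h2⟩
      refine ⟨h1, fun m hm => h2 m ?_ hm.2.1 hm.2.2⟩
      rw [hS, mem_nb]; exact hm.1
    · rintro ⟨h1, h2⟩
      refine ⟨h1, fun m hm h3 h4 => h2 m ⟨?_, h3, h4⟩⟩
      rw [hS, mem_nb] at hm; exact hm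
  · intro p hpT hpn
    apply Finset.sum_eq_zero
    intro c hc
    have hnot : ¬ E S g c p := by
      rintro ⟨hcc, _⟩
      rw [mem_lp, hS, mem_nb, mem_nb] at hpT
      rw [mem_prs] at hpn
      apply hpn
      refine ⟨⟨hpT.1.1, hpT.1.2, hpT.2⟩, fun hadj => ?_⟩
      rw [mem_cols] at hc
      exact hc p.1 p.2 hadj hcc
    unfold ind
    rw [if_neg hnot]

lemma isMinor_mm (G : SimpleGraph V) (w : V) (f : V → ℕ) (p : {x : V // x ≠ w} × {x : V // x ≠ w})
    (hp : p ∈ prs G w f) : IsMinor (mm G w f p) G := by
  rw [mem_prs] at hp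
  exact isMinor_mg_del G w p.1 p.2 _ hp.1.1 hp.1.2.1 (fun m hm => hm.1)

lemma card_del (w : V) [Fintype {x : V // x ≠ w}] :
    Fintype.card {x : V // x ≠ w} + 1 = Fintype.card V := by
  classical
  have h1 : Fintype.card {x : V // x ≠ w} = Fintype.card V - 1 := by
    rw [Fintype.card_subtype_compl, Fintype.card_subtype_eq]
  have h3 : 0 < Fintype.card V := Fintype.card_pos_iff.mpr ⟨w⟩
  omega

lemma card_mm (w : V) (y : {x : V // x ≠ w}) [Fintype {x : {x : V // x ≠ w} // x ≠ y}] :
    Fintype.card {x : {x : V // x ≠ w} // x ≠ y} + 2 = Fintype.card V := by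
  classical
  have h1 := card_del w
  have h2 := card_del y
  omega

end

end Pool.Agent.Helper36.BL
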