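import Pool.Agent.Helper36.BL.Minor

/-!
# Graphs without a `K₅` minor on `n ≥ 3` vertices have at most `3 n - 6` edges
-/

set_option autoImplicit false

namespace Pool.Agent.Helper36.BL

open SimpleGraph Finset

open scoped Classical in
/-- degree -/
noncomputable def deg {V : Type} [Fintype V] (G : SimpleGraph V) (v : V) : ℕ :=
  (Finset.univ.filter (fun x => G.Adj v x)).card

/-- sum of the degrees -/
noncomputable def dsum {V : Type} [Fintype V] (G : SimpleGraph V) : ℕ := ∑ v, deg G v

section

variable {V : Type} [Fintype V]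

lemma card_filter_subtype_ne (b : V) (P : V → Prop) [Fintype {x : V // x ≠ b}]
    [DecidablePred (fun x : {x : V // x ≠ b} => P x)] [DecidablePred (fun x : V => x ≠ b ∧ P x)] :
    (Finset.univ.filter (fun x : {x : V // x ≠ b} => P x)).card =
      (Finset.univ.filter (fun x : V => x ≠ b ∧ P x)).card := by
  rw [← Finset.card_map (Function.Embedding.subtype (fun x : V => x ≠ b))]
  congr 1
  ext x
  simp only [Finset.mem_map, Finset.mem_filter, Finset.mem_univ, true_and,
    Function.Embedding.subtype_apply, Subtype.exists, exists_and_left, exists_prop]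
  constructor
  · rintro ⟨a, h1, h2, h3⟩
    subst h3
    exact ⟨h2, h1⟩
  · rintro ⟨h1, h2⟩
    exact ⟨x, h2, h1, rfl⟩

open scoped Classical in
lemma card_filter_split (b : V) (P : V → Prop) :
    (Finset.univ.filter (fun x : V => P x)).card =
      (Finset.univ.filter (fun x : V => x ≠ b ∧ P x)).card + (if P b then 1 else 0) := by
  by_cases hb : P b
  · rw [if_pos hb]
    have : (Finset.univ.filter (fun x : V => P x)) =
        insert b (Finset.univ.filter (fun x : V => x ≠ b ∧ P x)) := by
      ext x
      simp only [Finset.mem_filter, Finset.mem_univ, true_and, Finset.mem_insert]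
      constructor
      · intro h
        by_cases hx : x = b
        · exact Or.inl hx
        · exact Or.inr ⟨hx, h⟩
      · rintro (h | h)
        · rw [h]; exact hb
        · exact h.2
    rw [this, Finset.card_insert_of_notMem]
    simp
  · rw [if_neg hb]
    congr 1
    ext x
    simp only [Finset.mem_filter, Finset.mem_univ, true_and]
    constructor
    · intro h
      exact ⟨fun hx => hb (hx ▸ h), h⟩
    · exact fun h => h.2

open scoped Classical in
lemma deg_del (G : SimpleGraph V) (v : V) (x : {x : V // x ≠ v}) :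
    deg G x = deg (del G v) x + (if G.Adj x v then 1 else 0) := by
  unfold deg
  rw [card_filter_split v (fun y => G.Adj x y)]
  congr 1
  exact (card_filter_subtype_ne v (fun y => G.Adj x y)).symm

open scoped Classical in
lemma dsum_del (G : SimpleGraph V) (v : V) : dsum G = dsum (del G v) + 2 * deg G v := by
  unfold dsum
  rw [Fintype.sum_eq_add_sum_subtype_ne (fun x => deg G x) v]
  have h1 : ∑ x : {x : V // x ≠ v}, deg G x =
      ∑ x : {x : V // x ≠ v}, (deg (del G v) x + (if G.Adj x v then 1 else 0)) :=
    Finset.sum_congr rfl (fun x _ => deg_del G v x)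
  rw [h1, Finset.sum_add_distrib]
  have h2 : ∑ x : {x : V // x ≠ v}, (if G.Adj (x : V) v then 1 else 0) = deg G v := by
    rw [← Finset.card_filter, card_filter_subtype_ne v (fun x => G.Adj x v)]
    unfold deg
    congr 1
    ext x
    simp only [Finset.mem_filter, Finset.mem_univ, true_and]
    constructor
    · exact fun h => h.2.symm
    · exact fun h => ⟨h.ne', h.symm⟩
  rw [h2]; ring

open scoped Classical in
/-- number of common neighbours -/
noncomputable def cn (G : SimpleGraph V) (a b : V) : ℕ :=
  (Finset.univ.filter (fun z => G.Adj a z ∧ G.Adj b z)).card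

open scoped Classical in
lemma deg_mg_ne (G : SimpleGraph V) (a b : V) (x : {x : V // x ≠ b}) (hx : (x : V) ≠ a)
    (hab : a ≠ b) :
    deg G x ≤ deg (mg G a b ∅) x + (if (G.Adj a x ∧ G.Adj b x) then 1 else 0) := by
  have e : deg (mg G a b ∅) x = (Finset.univ.filter (fun y : V => y ≠ b ∧
      ((x : V) ≠ y ∧ (G.Adj x y ∨ (y = a ∧ G.Adj b x))))).card := by
    refine Eq.trans ?_ (card_filter_subtype_ne b (fun y => (x : V) ≠ y ∧
      (G.Adj x y ∨ (y = a ∧ G.Adj b x))))
    unfold deg
    congr 1
    ext y
    simp only [Finset.mem_filter, Finset.mem_univ, true_and, mg_adj, Set.mem_empty_iff_false,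
      or_false]
    constructor
    · rintro ⟨h1, h2 | h2 | h2⟩
      · exact ⟨fun h => h1 (Subtype.ext h), Or.inl h2⟩
      · exact absurd h2.1 hx
      · exact ⟨fun h => h1 (Subtype.ext h), Or.inr h2⟩
    · rintro ⟨h1, h2 | h2⟩
      · exact ⟨fun h => h1 (congrArg Subtype.val h), Or.inl h2⟩
      · exact ⟨fun h => h1 (congrArg Subtype.val h), Or.inr (Or.inr h2)⟩
  rw [e]
  unfold deg
  rw [card_filter_split b (fun y => G.Adj x y)]
  by_cases hb : G.Adj x b
  · rw [if_pos hb]
    by_cases ha : G.Adj a x
    · rw [if_pos ⟨ha, hb.symm⟩]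
      gcongr 1
      apply Finset.card_le_card
      intro y hy
      simp only [Finset.mem_filter, Finset.mem_univ, true_and] at hy ⊢
      exact ⟨hy.1, hy.2.ne, Or.inl hy.2⟩
    · rw [if_neg (fun h => ha h.1), add_zero]
      have : insert a (Finset.univ.filter (fun y : V => y ≠ b ∧ G.Adj x y)) ⊆
          (Finset.univ.filter (fun y : V => y ≠ b ∧
            ((x : V) ≠ y ∧ (G.Adj x y ∨ (y = a ∧ G.Adj b x))))) := by
        intro y hy
        simp only [Finset.mem_filter, Finset.mem_univ, true_and, Finset.mem_insert] at hy ⊢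
        rcases hy with hy | hy
        · subst hy
          exact ⟨hab, hx, Or.inr ⟨rfl, hb.symm⟩⟩
        · exact ⟨hy.1, hy.2.ne, Or.inl hy.2⟩
      refine le_trans ?_ (Finset.card_le_card this)
      rw [Finset.card_insert_of_notMem]
      simp only [Finset.mem_filter, Finset.mem_univ, true_and, not_and]
      intro _ h
      exact ha h.symm
  · rw [if_neg hb, add_zero, if_neg (fun h => hb h.2.symm), add_zero]
    apply Finset.card_le_card
    intro y hy
    simp only [Finset.mem_filter, Finset.mem_univ, true_and] at hy ⊢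
    exact ⟨hy.1, hy.2.ne, Or.inl hy.2⟩

open scoped Classical in
lemma deg_mg_eq (G : SimpleGraph V) (a b : V) (hab : a ≠ b) :
    deg G a + deg G b ≤ deg (mg G a b ∅) ⟨a, hab⟩ + 2 + cn G a b := by
  have e : deg (mg G a b ∅) ⟨a, hab⟩ = (Finset.univ.filter (fun y : V => y ≠ b ∧
      (a ≠ y ∧ (G.Adj a y ∨ G.Adj b y)))).card := by
    refine Eq.trans ?_ (card_filter_subtype_ne b (fun y => a ≠ y ∧ (G.Adj a y ∨ G.Adj b y)))
    unfold deg
    congr 1
    ext y
    simp only [Finset.mem_filter, Finset.mem_univ, true_and, mg_adj, Set.mem_empty_iff_false,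
      or_false]
    constructor
    · rintro ⟨h1, h2 | h2 | h2⟩
      · exact ⟨fun h => h1 (Subtype.ext h), Or.inl h2⟩
      · exact ⟨fun h => h1 (Subtype.ext h), Or.inr h2⟩
      · exact absurd (Subtype.ext h2.1.symm) h1
    · rintro ⟨h1, h2 | h2⟩
      · exact ⟨fun h => h1 (congrArg Subtype.val h), Or.inl h2⟩
      · exact ⟨fun h => h1 (congrArg Subtype.val h), Or.inr (Or.inl h2)⟩
  rw [e]
  unfold deg cn
  rw [← Finset.card_union_add_card_inter]
  have h1 : (Finset.univ.filter (fun y => G.Adj a y)) ∪ (Finset.univ.filter (fun y => G.Adj b y)) ⊆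
      insert a (insert b (Finset.univ.filter (fun y : V => y ≠ b ∧
        (a ≠ y ∧ (G.Adj a y ∨ G.Adj b y))))) := by
    intro y hy
    simp only [Finset.mem_union, Finset.mem_filter, Finset.mem_univ, true_and,
      Finset.mem_insert] at hy ⊢
    by_cases h1 : y = a
    · exact Or.inl h1
    · by_cases h2 : y = b
      · exact Or.inr (Or.inl h2)
      · exact Or.inr (Or.inr ⟨h2, fun h => h1 h.symm, hy⟩)
  have h2 := Finset.card_le_card h1
  have h3 := Finset.card_insert_le a (insert b (Finset.univ.filter (fun y : V => y ≠ b ∧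
        (a ≠ y ∧ (G.Adj a y ∨ G.Adj b y)))))
  have h4 := Finset.card_insert_le b (Finset.univ.filter (fun y : V => y ≠ b ∧
        (a ≠ y ∧ (G.Adj a y ∨ G.Adj b y))))
  have h5 : ((Finset.univ.filter (fun y => G.Adj a y)) ∩
      (Finset.univ.filter (fun y => G.Adj b y))) =
      Finset.univ.filter (fun z => G.Adj a z ∧ G.Adj b z) := by
    ext z; simp
  rw [h5]
  omega

open scoped Classical in
lemma dsum_mg (G : SimpleGraph V) (a b : V) (hab : a ≠ b) :
    dsum G ≤ dsum (mg G a b ∅) + 2 + 2 * cn G a b := by
  have h0 : dsum G = deg G b + (deg G a + ∑ x ∈ (Finset.univ : Finset {x : V // x ≠ b}).erase ⟨a, hab⟩,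
      deg G x) := by
    unfold dsum
    rw [Fintype.sum_eq_add_sum_subtype_ne (fun x => deg G x) b]
    congr 1
    exact (Finset.add_sum_erase _ (fun x : {x : V // x ≠ b} => deg G x)
      (Finset.mem_univ (⟨a, hab⟩ : {x : V // x ≠ b}))).symm
  have h1 : dsum (mg G a b ∅) = deg (mg G a b ∅) ⟨a, hab⟩ +
      ∑ x ∈ (Finset.univ : Finset {x : V // x ≠ b}).erase ⟨a, hab⟩, deg (mg G a b ∅) x := by
    unfold dsum
    exact (Finset.add_sum_erase _ (fun x : {x : V // x ≠ b} => deg (mg G a b ∅) x)
      (Finset.mem_univ (⟨a, hab⟩ : {x : V // x ≠ b}))).symm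
  have h2 : ∑ x ∈ (Finset.univ : Finset {x : V // x ≠ b}).erase ⟨a, hab⟩, deg G x ≤
      ∑ x ∈ (Finset.univ : Finset {x : V // x ≠ b}).erase ⟨a, hab⟩,
        (deg (mg G a b ∅) x + (if (G.Adj a x ∧ G.Adj b x) then 1 else 0)) := by
    apply Finset.sum_le_sum
    intro x hx
    apply deg_mg_ne G a b x _ hab
    intro h
    exact (Finset.mem_erase.mp hx).1 (Subtype.ext h)
  rw [Finset.sum_add_distrib] at h2
  have h3 : ∑ x ∈ (Finset.univ : Finset {x : V // x ≠ b}).erase ⟨a, hab⟩,
      (if (G.Adj a x ∧ G.Adj b x) then 1 else 0) ≤ cn G a b := by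
    refine le_trans (Finset.sum_le_sum_of_subset (Finset.erase_subset _ _)) ?_
    rw [← Finset.card_filter]
    refine le_trans (le_of_eq (card_filter_subtype_ne b (fun x => G.Adj a x ∧ G.Adj b x))) ?_
    unfold cn
    apply Finset.card_le_card
    intro x hx
    simp only [Finset.mem_filter, Finset.mem_univ, true_and] at hx ⊢
    exact hx.2
  have h4 := deg_mg_eq G a b hab
  omega

open scoped Classical in
lemma deg_deleteEdge (G : SimpleGraph V) (a b : V) (x : V) :
    deg G x ≤ deg (G.deleteEdges {s(a, b)}) x + ((if x = a then 1 else 0) + (if x = b then 1 else 0)) := by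
  have hle : ∀ c : V, (∀ y, y ≠ c → G.Adj x y → (G.deleteEdges {s(a, b)}).Adj x y) →
      deg G x ≤ deg (G.deleteEdges {s(a, b)}) x + 1 := by
    intro c hc
    have h0 : deg G x = (Finset.univ.filter (fun y : V => y ≠ c ∧ G.Adj x y)).card +
        (if G.Adj x c then 1 else 0) := card_filter_split c (fun y => G.Adj x y)
    have h1 : (Finset.univ.filter (fun y : V => y ≠ c ∧ G.Adj x y)).card ≤
        deg (G.deleteEdges {s(a, b)}) x := by
      unfold deg
      apply Finset.card_le_card
      intro y hy
      simp only [Finset.mem_filter, Finset.mem_univ, true_and] at hy ⊢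
      exact hc y hy.1 hy.2
    have h2 : (if G.Adj x c then 1 else 0) ≤ 1 := by split_ifs <;> omega
    omega
  by_cases hxa : x = a
  · rw [if_pos hxa]
    have := hle b (by
      intro y hy hadj
      rw [deleteEdges_adj]
      refine ⟨hadj, ?_⟩
      rw [Set.mem_singleton_iff, Sym2.eq_iff]
      rintro (h | h)
      · exact hy h.2
      · exact hadj.ne (hxa.trans h.2.symm))
    omega
  · by_cases hxb : x = b
    · rw [if_pos hxb]
      have := hle a (by
        intro y hy hadj
        rw [deleteEdges_adj]
        refine ⟨hadj, ?_⟩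
        rw [Set.mem_singleton_iff, Sym2.eq_iff]
        rintro (h | h)
        · exact hxa h.1
        · exact hy h.2)
      omega
    · rw [if_neg hxa, if_neg hxb]
      simp only [add_zero]
      unfold deg
      apply Finset.card_le_card
      intro y hy
      simp only [Finset.mem_filter, Finset.mem_univ, true_and, deleteEdges_adj,
        Set.mem_singleton_iff, Sym2.eq_iff] at hy ⊢
      refine ⟨hy, ?_⟩
      rintro (h | h)
      · exact hxa h.1
      · exact hxb h.1

open scoped Classical in
lemma dsum_deleteEdge_le (G : SimpleGraph V) (a b : V) :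
    dsum G ≤ dsum (G.deleteEdges {s(a, b)}) + 2 := by
  unfold dsum
  calc ∑ x, deg G x ≤ ∑ x, (deg (G.deleteEdges {s(a, b)}) x +
        ((if x = a then 1 else 0) + (if x = b then 1 else 0))) :=
        Finset.sum_le_sum (fun x _ => deg_deleteEdge G a b x)
    _ = ∑ x, deg (G.deleteEdges {s(a, b)}) x + 2 := by
        rw [Finset.sum_add_distrib, Finset.sum_add_distrib]
        simp

open scoped Classical in
lemma dsum_deleteEdge_lt (G : SimpleGraph V) (a b : V) (hab : G.Adj a b) :
    dsum (G.deleteEdges {s(a, b)}) < dsum G := by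
  unfold dsum
  apply Finset.sum_lt_sum
  · intro x _
    unfold deg
    apply Finset.card_le_card
    intro y hy
    simp only [Finset.mem_filter, Finset.mem_univ, true_and, deleteEdges_adj] at hy ⊢
    exact hy.1
  · refine ⟨a, Finset.mem_univ _, ?_⟩
    unfold deg
    apply Finset.card_lt_card
    rw [Finset.ssubset_iff_of_subset]
    · refine ⟨b, ?_, ?_⟩
      · simpa using hab
      · simp
    · intro y hy
      simp only [Finset.mem_filter, Finset.mem_univ, true_and, deleteEdges_adj] at hy ⊢
      exact hy.1

open scoped Classical in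
lemma deg_lt_card (G : SimpleGraph V) (v : V) : deg G v < Fintype.card V := by
  unfold deg
  rw [← Finset.card_univ]
  apply Finset.card_lt_card
  rw [Finset.ssubset_iff_of_subset (Finset.filter_subset _ _)]
  exact ⟨v, Finset.mem_univ _, by simp⟩

end

/-- A convenient way to give a `K₅` minor. -/
lemma K5_minor_of {V : Type} (G : SimpleGraph V) (x p p' q r s : V)
    (hxp : G.Adj x p) (hxp' : G.Adj x p') (hpp : p = p' ∨ G.Adj p p')
    (hxq : G.Adj x q) (hxr : G.Adj x r) (hxs : G.Adj x s)
    (hpq : G.Adj p q ∨ G.Adj p' q) (hpr : G.Adj p r ∨ G.Adj p' r)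
    (hps : G.Adj p s ∨ G.Adj p' s) (hqr : G.Adj q r) (hqs : G.Adj q s) (hrs : G.Adj r s)
    (n1 : p ≠ q) (n2 : p ≠ r) (n3 : p ≠ s) (n1' : p' ≠ q) (n2' : p' ≠ r) (n3' : p' ≠ s) :
    IsMinor (⊤ : SimpleGraph (Fin 5)) G := by
  have main : ∃ B : Fin 5 → Set V, (∀ w, (G.induce (B w)).Connected) ∧
      (∀ w w', w < w' → Disjoint (B w) (B w')) ∧
      (∀ w w', w < w' → ∃ a ∈ B w, ∃ b ∈ B w', G.Adj a b) := by
    refine ⟨![{x}, {z | z = p ∨ z = p'}, {q}, {r}, {s}], ?_, ?_, ?_⟩
    · have single : ∀ y : V, (G.induce {y}).Connected := by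
        intro y
        apply star_connected G {y} y (Set.mem_singleton _)
        intro z hz hne
        exact absurd hz hne
      intro w
      fin_cases w
      · exact single x
      · apply star_connected G {z | z = p ∨ z = p'} p (Or.inl rfl)
        rintro z (hz | hz) hne
        · exact absurd hz hne
        · rcases hpp with h | h
          · exact absurd (hz.trans h.symm) hne
          · rw [hz]; exact h
      · exact single q
      · exact single r
      · exact single s
    · intro w w' hlt
      rw [Set.disjoint_left]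
      have e1 := hxp.ne
      have e2 := hxp'.ne
      have e3 := hxq.ne
      have e4 := hxr.ne
      have e5 := hxs.ne
      have e6 := hqr.ne
      have e7 := hqs.ne
      have e8 := hrs.ne
      fin_cases w <;> fin_cases w' <;> first | (exact absurd hlt (by decide)) | skip
      · rintro z hz (hz' | hz')
        · exact e1 (hz.symm.trans hz')
        · exact e2 (hz.symm.trans hz')
      · intro z hz hz'; exact e3 (hz.symm.trans hz')
      · intro z hz hz'; exact e4 (hz.symm.trans hz')
      · intro z hz hz'; exact e5 (hz.symm.trans hz')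
      · rintro z (hz | hz) hz'
        · exact n1 (hz.symm.trans hz')
        · exact n1' (hz.symm.trans hz')
      · rintro z (hz | hz) hz'
        · exact n2 (hz.symm.trans hz')
        · exact n2' (hz.symm.trans hz')
      · rintro z (hz | hz) hz'
        · exact n3 (hz.symm.trans hz')
        · exact n3' (hz.symm.trans hz')
      · intro z hz hz'; exact e6 (hz.symm.trans hz')
      · intro z hz hz'; exact e7 (hz.symm.trans hz')
      · intro z hz hz'; exact e8 (hz.symm.trans hz')
    · intro w w' hlt
      fin_cases w <;> fin_cases w' <;> first | (exact absurd hlt (by decide)) | skip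
      · exact ⟨x, rfl, p, Or.inl rfl, hxp⟩
      · exact ⟨x, rfl, q, rfl, hxq⟩
      · exact ⟨x, rfl, r, rfl, hxr⟩
      · exact ⟨x, rfl, s, rfl, hxs⟩
      · rcases hpq with h | h
        · exact ⟨p, Or.inl rfl, q, rfl, h⟩
        · exact ⟨p', Or.inr rfl, q, rfl, h⟩
      · rcases hpr with h | h
        · exact ⟨p, Or.inl rfl, r, rfl, h⟩
        · exact ⟨p', Or.inr rfl, r, rfl, h⟩
      · rcases hps with h | h
        · exact ⟨p, Or.inl rfl, s, rfl, h⟩
        · exact ⟨p', Or.inr rfl, s, rfl, h⟩
      · exact ⟨q, rfl, r, rfl, hqr⟩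
      · exact ⟨q, rfl, s, rfl, hqs⟩
      · exact ⟨r, rfl, s, rfl, hrs⟩
  obtain ⟨B, h1, h2, h3⟩ := main
  refine ⟨B, h1, ?_, ?_⟩
  · intro w w' hne
    rcases lt_or_gt_of_ne hne with h | h
    · exact h2 w w' h
    · exact (h2 w' w h).symm
  · intro w w' hadj
    rcases lt_or_gt_of_ne (show w ≠ w' from hadj.ne) with h | h
    · exact h3 w w' h
    · obtain ⟨a, ha, b, hb, hab⟩ := h3 w' w h
      exact ⟨b, hb, a, ha, hab.symm⟩

section

variable {V : Type} [Fintype V]

open scoped Classical in
/-- If `x` has degree 4 or 5 and every edge at `x` lies in at least three triangles, there is a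
`K₅` minor. -/
lemma K5_local (G : SimpleGraph V) (x : V) (h45 : deg G x = 4 ∨ deg G x = 5)
    (h3 : ∀ y, G.Adj x y → 3 ≤ cn G x y) : IsMinor (⊤ : SimpleGraph (Fin 5)) G := by
  set N := Finset.univ.filter (fun z => G.Adj x z) with hN
  have hNc : N.card = deg G x := rfl
  have memN : ∀ z, z ∈ N ↔ G.Adj x z := by intro z; simp [hN]
  -- at most `card N - 4` non-neighbours
  have hnon : ∀ y ∈ N, ∀ T ⊆ N, y ∉ T → (∀ t ∈ T, ¬ G.Adj y t) → T.card + 4 ≤ N.card := by
    intro y hy T hT hyT hTn
    have hc := h3 y ((memN y).mp hy)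
    unfold cn at hc
    have hsub : (Finset.univ.filter (fun z => G.Adj x z ∧ G.Adj y z)) ⊆ (N.erase y) \ T := by
      intro z hz
      simp only [Finset.mem_filter, Finset.mem_univ, true_and] at hz
      rw [Finset.mem_sdiff, Finset.mem_erase]
      refine ⟨⟨hz.2.ne', (memN z).mpr hz.1⟩, fun hzT => hTn z hzT hz.2⟩
    have h1 := Finset.card_le_card hsub
    have hT' : T ⊆ N.erase y := by
      intro t ht
      exact Finset.mem_erase.mpr ⟨fun h => hyT (h ▸ ht), hT ht⟩
    rw [Finset.card_sdiff_of_subset hT', Finset.card_erase_of_mem hy] at h1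
    have h2 := Finset.card_le_card hT'
    rw [Finset.card_erase_of_mem hy] at h2
    omega
  rcases h45 with h4 | h5
  · -- degree 4: clique
    have hcl : ∀ y ∈ N, ∀ z ∈ N, y ≠ z → G.Adj y z := by
      intro y hy z hz hne
      by_contra hn
      have := hnon y hy {z} (by simpa using hz) (by simpa using hne) (by simpa using hn)
      simp at this
      omega
    let e : N ≃ Fin 4 := Finset.equivFinOfCardEq (by rw [hNc, h4])
    refine IsMinor.of_inj (Fin.cons x (fun i : Fin 4 => ((e.symm i : N) : V))) ?_ ?_
    · intro i j hij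
      refine Fin.cases ?_ (fun i => ?_) i hij
      · intro hij
        refine Fin.cases ?_ (fun j => ?_) j hij
        · intro _; rfl
        · intro h
          simp only [Fin.cons_zero, Fin.cons_succ] at h
          have := (memN _).mp (e.symm j).2
          rw [← h] at this
          exact absurd rfl this.ne
      · intro hij
        refine Fin.cases ?_ (fun j => ?_) j hij
        · intro h
          simp only [Fin.cons_zero, Fin.cons_succ] at h
          have := (memN _).mp (e.symm i).2
          rw [h] at this
          exact absurd rfl this.ne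
        · intro h
          simp only [Fin.cons_succ] at h
          rw [e.symm.injective (Subtype.ext h)]
    · intro i j hij
      rw [top_adj] at hij
      revert hij
      refine Fin.cases ?_ (fun i => ?_) i
      · refine Fin.cases ?_ (fun j => ?_) j
        · intro h; exact absurd rfl h
        · intro _
          simp only [Fin.cons_zero, Fin.cons_succ]
          exact (memN _).mp (e.symm j).2
      · refine Fin.cases ?_ (fun j => ?_) j
        · intro _
          simp only [Fin.cons_zero, Fin.cons_succ]
          exact ((memN _).mp (e.symm i).2).symm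
        · intro h
          simp only [Fin.cons_succ]
          apply hcl _ (e.symm i).2 _ (e.symm j).2
          intro hh
          exact h (congrArg Fin.succ (e.symm.injective (Subtype.ext hh)))
  · -- degree 5
    have huniq : ∀ y ∈ N, ∀ z ∈ N, ∀ z' ∈ N, y ≠ z → y ≠ z' → z ≠ z' → ¬ G.Adj y z →
        G.Adj y z' := by
      intro y hy z hz z' hz' h1 h2 h3' hn
      by_contra hn'
      have := hnon y hy {z, z'} (by intro t ht; simp at ht; rcases ht with ht | ht <;> rw [ht] <;> assumption)
        (by simp [h1, h2]) (by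
          intro t ht
          simp at ht
          rcases ht with ht | ht
          · rw [ht]; exact hn
          · rw [ht]; exact hn')
      rw [Finset.card_pair h3'] at this
      omega
    by_cases hcl : ∀ y ∈ N, ∀ z ∈ N, y ≠ z → G.Adj y z
    · -- clique
      obtain ⟨a, ha⟩ : N.Nonempty := by rw [← Finset.card_pos]; omega
      have hc1 : (N.erase a).card = 4 := by rw [Finset.card_erase_of_mem ha]; omega
      obtain ⟨b, hb⟩ : (N.erase a).Nonempty := by rw [← Finset.card_pos]; omega
      have hc2 : ((N.erase a).erase b).card = 3 := by rw [Finset.card_erase_of_mem hb]; omega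
      obtain ⟨c, d, e, hcd, hce, hde, hs⟩ := Finset.card_eq_three.mp hc2
      have mc : c ∈ (N.erase a).erase b := by rw [hs]; simp
      have md : d ∈ (N.erase a).erase b := by rw [hs]; simp
      have me : e ∈ (N.erase a).erase b := by rw [hs]; simp
      simp only [Finset.mem_erase] at mc md me hb
      exact K5_minor_of G x b b c d e ((memN _).mp hb.2) ((memN _).mp hb.2) (Or.inl rfl)
        ((memN _).mp mc.2.2) ((memN _).mp md.2.2) ((memN _).mp me.2.2)
        (Or.inl (hcl _ hb.2 _ mc.2.2 (Ne.symm mc.1))) (Or.inl (hcl _ hb.2 _ md.2.2 (Ne.symm md.1)))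
        (Or.inl (hcl _ hb.2 _ me.2.2 (Ne.symm me.1)))
        (hcl _ mc.2.2 _ md.2.2 hcd) (hcl _ mc.2.2 _ me.2.2 hce) (hcl _ md.2.2 _ me.2.2 hde)
        (Ne.symm mc.1) (Ne.symm md.1) (Ne.symm me.1) (Ne.symm mc.1) (Ne.symm md.1) (Ne.symm me.1)
    · push Not at hcl
      obtain ⟨a, ha, b, hb, hab, hnab⟩ := hcl
      have hc1 : (N.erase a).card = 4 := by rw [Finset.card_erase_of_mem ha]; omega
      have hb' : b ∈ N.erase a := Finset.mem_erase.mpr ⟨hab.symm, hb⟩
      have hc2 : ((N.erase a).erase b).card = 3 := by rw [Finset.card_erase_of_mem hb']; omega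
      obtain ⟨c, d, e, hcd, hce, hde, hs⟩ := Finset.card_eq_three.mp hc2
      have mc : c ∈ (N.erase a).erase b := by rw [hs]; simp
      have md : d ∈ (N.erase a).erase b := by rw [hs]; simp
      have me : e ∈ (N.erase a).erase b := by rw [hs]; simp
      simp only [Finset.mem_erase] at mc md me
      -- everything outside is adjacent to a and b
      have adja : ∀ z ∈ N, z ≠ a → z ≠ b → G.Adj a z := fun z hz hza hzb =>
        huniq a ha b hb z hz hab (Ne.symm hza) (Ne.symm hzb) hnab
      have adjb : ∀ z ∈ N, z ≠ a → z ≠ b → G.Adj b z := fun z hz hza hzb =>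
        huniq b hb a ha z hz hab.symm (Ne.symm hzb) (Ne.symm hza) (fun h => hnab h.symm)
      -- the case of a further non-adjacent pair
      have sub : ∀ c d e, c ∈ N → d ∈ N → e ∈ N → c ≠ a → c ≠ b → d ≠ a → d ≠ b → e ≠ a → e ≠ b →
          c ≠ d → c ≠ e → d ≠ e → ¬ G.Adj c d → IsMinor (⊤ : SimpleGraph (Fin 5)) G := by
        intro c d e hc hd he hca hcb hda hdb hea heb hcd hce hde hn
        have hce' : G.Adj c e := huniq c hc d hd e he hcd hce hde hn
        have hde' : G.Adj d e := huniq d hd c hc e he hcd.symm hde hce (fun h => hn h.symm)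
        exact K5_minor_of G x a c b d e ((memN _).mp ha) ((memN _).mp hc)
          (Or.inr (adja c hc hca hcb)) ((memN _).mp hb) ((memN _).mp hd) ((memN _).mp he)
          (Or.inr (adjb c hc hca hcb).symm) (Or.inl (adja d hd hda hdb))
          (Or.inl (adja e he hea heb)) (adjb d hd hda hdb) (adjb e he hea heb) hde'
          hab (Ne.symm hda) (Ne.symm hea) hcb hcd hce
      by_cases h1 : G.Adj c d
      · by_cases h2 : G.Adj c e
        · by_cases h3' : G.Adj d e
          · exact K5_minor_of G x a a c d e ((memN _).mp ha) ((memN _).mp ha) (Or.inl rfl)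
              ((memN _).mp mc.2.2) ((memN _).mp md.2.2) ((memN _).mp me.2.2)
              (Or.inl (adja c mc.2.2 mc.2.1 mc.1)) (Or.inl (adja d md.2.2 md.2.1 md.1))
              (Or.inl (adja e me.2.2 me.2.1 me.1)) h1 h2 h3'
              (Ne.symm mc.2.1) (Ne.symm md.2.1) (Ne.symm me.2.1)
              (Ne.symm mc.2.1) (Ne.symm md.2.1) (Ne.symm me.2.1)
          · exact sub d e c md.2.2 me.2.2 mc.2.2 md.2.1 md.1 me.2.1 me.1 mc.2.1 mc.1
              hde (Ne.symm hcd) (Ne.symm hce) h3'
        · exact sub c e d mc.2.2 me.2.2 md.2.2 mc.2.1 mc.1 me.2.1 me.1 md.2.1 md.1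
            hce hcd (Ne.symm hde) h2
      · exact sub c d e mc.2.2 md.2.2 me.2.2 mc.2.1 mc.1 md.2.1 md.1 me.2.1 me.1
          hcd hce hde h1

end

/-- Mader's bound for `K₅`. -/
theorem edge_bound : ∀ (n m : ℕ) (V : Type) [Fintype V] (G : SimpleGraph V),
    Fintype.card V = n → dsum G = m → K5Free G → 3 ≤ n → m + 12 ≤ 6 * n := by
  classical
  intro n
  induction n using Nat.strong_induction_on with
  | _ n ihn =>
  intro m
  induction m using Nat.strong_induction_on with
  | _ m ihm =>
  intro V _ G hV hm hG hn
  by_contra hcon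
  push Not at hcon
  rcases Nat.lt_or_ge n 4 with h4 | h4
  · -- n = 3
    have h3 : n = 3 := by omega
    subst h3
    have : dsum G ≤ ∑ _v : V, 2 := by
      unfold dsum
      apply Finset.sum_le_sum
      intro v _
      have := deg_lt_card G v
      omega
    simp only [Finset.sum_const, Finset.card_univ, hV, smul_eq_mul] at this
    omega
  · have hsub : ∀ v : V, Fintype.card {x : V // x ≠ v} = n - 1 := by
      intro v
      rw [Fintype.card_subtype_compl, Fintype.card_subtype_eq, hV]
    by_cases hbig : 6 * n ≤ m + 9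
    · -- delete an edge
      have hpos : 0 < dsum G := by omega
      unfold dsum at hpos
      obtain ⟨a, _, ha⟩ := Finset.exists_ne_zero_of_sum_ne_zero hpos.ne'
      unfold deg at ha
      obtain ⟨b, hb⟩ := Finset.card_ne_zero.mp ha
      simp only [Finset.mem_filter, Finset.mem_univ, true_and] at hb
      have h1 := dsum_deleteEdge_le G a b
      have h2 := dsum_deleteEdge_lt G a b hb
      have h3 := ihm (dsum (G.deleteEdges {s(a, b)})) (by omega) V (G.deleteEdges {s(a, b)}) hV rfl
        (hG.minor (IsMinor.of_le (G.deleteEdges_le _))) hn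
      omega
    · push Not at hbig
      obtain ⟨x, hx⟩ : ∃ x, deg G x ≤ 5 := by
        by_contra hno
        push Not at hno
        have : ∑ _v : V, 6 ≤ dsum G := by
          unfold dsum
          apply Finset.sum_le_sum
          intro v _
          exact hno v
        simp only [Finset.sum_const, Finset.card_univ, hV, smul_eq_mul] at this
        omega
      have hdel := ihn (n - 1) (by omega) (dsum (del G x)) {y : V // y ≠ x} (del G x) (hsub x) rfl
        (hG.minor (isMinor_del G x)) (by omega)
      have hdel2 := dsum_del G x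
      have hx4 : 4 ≤ deg G x := by omega
      have htri : ∀ y, G.Adj x y → 3 ≤ cn G x y := by
        intro y hy
        have h1 := ihn (n - 1) (by omega) (dsum (mg G x y ∅)) {z : V // z ≠ y} (mg G x y ∅)
          (hsub y) rfl (hG.minor (isMinor_mg_edge G x y hy)) (by omega)
        have h2 := dsum_mg G x y hy.ne
        omega
      exact hG (K5_local G x (by omega) htri)

/-- `K₅`-minor-free graphs have a vertex of degree at most five. -/
theorem exists_deg_le_five {V : Type} [Fintype V] [Nonempty V] (G : SimpleGraph V)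
    (hG : K5Free G) : ∃ v, deg G v ≤ 5 := by
  classical
  by_contra hno
  push Not at hno
  obtain ⟨v⟩ := ‹Nonempty V›
  have h1 := deg_lt_card G v
  have h2 := hno v
  have h3 := edge_bound (Fintype.card V) (dsum G) V G rfl rfl hG (by omega)
  have : ∑ _v : V, 6 ≤ dsum G := by
    unfold dsum
    apply Finset.sum_le_sum
    intro v _
    exact hno v
  simp only [Finset.sum_const, Finset.card_univ, smul_eq_mul] at this
  omega

end Pool.Agent.Helper36.BL
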