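import Pool.Agent.Helper36.BL.Count

/-!
# In a `K₅`-minor-free graph at most a third of the 5-colourings are rainbow on the neighbourhood of
a deleted vertex of degree five
-/

set_option autoImplicit false

namespace Pool.Agent.Helper36.BL

open SimpleGraph Finset

section

variable {V : Type}

/-- `v` is made isolated -/
def iso (G : SimpleGraph V) (v : V) : SimpleGraph V where
  Adj x y := G.Adj x y ∧ x ≠ v ∧ y ≠ v
  symm := ⟨fun _ _ h => ⟨h.1.symm, h.2.2, h.2.1⟩⟩
  loopless := ⟨fun _ h => h.1.ne rfl⟩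

/-- `v` is made isolated and its old neighbourhood is made complete -/
def rb (G : SimpleGraph V) (v : V) : SimpleGraph V where
  Adj x y := (G.Adj x y ∧ x ≠ v ∧ y ≠ v) ∨ (x ≠ y ∧ G.Adj v x ∧ G.Adj v y)
  symm := ⟨fun _ _ h => h.elim (fun h => Or.inl ⟨h.1.symm, h.2.2, h.2.1⟩)
    (fun h => Or.inr ⟨h.1.symm, h.2.2, h.2.1⟩)⟩
  loopless := ⟨fun _ h => h.elim (fun h => h.1.ne rfl) (fun h => h.1 rfl)⟩

lemma iso_adj (G : SimpleGraph V) (v x y : V) : (iso G v).Adj x y ↔ G.Adj x y ∧ x ≠ v ∧ y ≠ v :=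
  Iff.rfl

lemma rb_adj (G : SimpleGraph V) (v x y : V) : (rb G v).Adj x y ↔
    (G.Adj x y ∧ x ≠ v ∧ y ≠ v) ∨ (x ≠ y ∧ G.Adj v x ∧ G.Adj v y) := Iff.rfl

lemma del_iso (G : SimpleGraph V) (v w : V) (h : v ≠ w) :
    del (iso G v) w = iso (del G w) ⟨v, h⟩ := by
  ext x y
  simp only [del_adj, iso_adj, ne_eq, Subtype.ext_iff]

lemma del_rb (G : SimpleGraph V) (v w : V) (h : v ≠ w) :
    del (rb G v) w = rb (del G w) ⟨v, h⟩ := by
  ext x y
  simp only [del_adj, rb_adj, ne_eq, Subtype.ext_iff]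

lemma mg_iso (H : SimpleGraph V) (v a b : V) (F : Set V) (hva : v ≠ a) (hvb : v ≠ b)
    (hvF : v ∉ F) : mg (iso H v) a b F = iso (mg H a b F) ⟨v, hvb⟩ := by
  ext x y
  simp only [mg_adj, iso_adj, ne_eq, Subtype.ext_iff]
  constructor
  · rintro ⟨hne, ⟨h1, h2, h3⟩ | ⟨h1, ⟨h2, h3, h4⟩ | h2⟩ | ⟨h1, ⟨h2, h3, h4⟩ | h2⟩⟩
    · exact ⟨⟨hne, Or.inl h1⟩, h2, h3⟩
    · exact ⟨⟨hne, Or.inr (Or.inl ⟨h1, Or.inl h2⟩)⟩, fun h => hva (h.symm.trans h1), h4⟩
    · exact ⟨⟨hne, Or.inr (Or.inl ⟨h1, Or.inr h2⟩)⟩, fun h => hva (h.symm.trans h1),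
        fun h => hvF (h ▸ h2)⟩
    · exact ⟨⟨hne, Or.inr (Or.inr ⟨h1, Or.inl h2⟩)⟩, h4, fun h => hva (h.symm.trans h1)⟩
    · exact ⟨⟨hne, Or.inr (Or.inr ⟨h1, Or.inr h2⟩)⟩, fun h => hvF (h ▸ h2),
        fun h => hva (h.symm.trans h1)⟩
  · rintro ⟨⟨hne, h | ⟨h1, h2 | h2⟩ | ⟨h1, h2 | h2⟩⟩, hx, hy⟩
    · exact ⟨hne, Or.inl ⟨h, hx, hy⟩⟩
    · exact ⟨hne, Or.inr (Or.inl ⟨h1, Or.inl ⟨h2, fun h => hvb h.symm, hy⟩⟩)⟩
    · exact ⟨hne, Or.inr (Or.inl ⟨h1, Or.inr h2⟩)⟩
    · exact ⟨hne, Or.inr (Or.inr ⟨h1, Or.inl ⟨h2, fun h => hvb h.symm, hx⟩⟩)⟩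
    · exact ⟨hne, Or.inr (Or.inr ⟨h1, Or.inr h2⟩)⟩

lemma mg_rb (H : SimpleGraph V) (v a b : V) (F : Set V) (hva : v ≠ a) (hvb : v ≠ b)
    (hvF : v ∉ F) : mg (rb H v) a b F = rb (mg H a b F) ⟨v, hvb⟩ := by
  have e1 : ∀ x : {x : V // x ≠ b}, (mg H a b F).Adj ⟨v, hvb⟩ x ↔
      (H.Adj v x ∨ ((x : V) = a ∧ H.Adj v b)) := by
    intro x
    rw [mg_adj]
    constructor
    · rintro ⟨hne, h | ⟨h1, h2⟩ | ⟨h1, h2 | h2⟩⟩
      · exact Or.inl h
      · exact absurd h1 hva
      · exact Or.inr ⟨h1, h2.symm⟩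
      · exact absurd h2 hvF
    · rintro (h | ⟨h1, h2⟩)
      · exact ⟨fun h' => h.ne (congrArg Subtype.val h'), Or.inl h⟩
      · refine ⟨fun h' => hva ?_, Or.inr (Or.inr ⟨h1, Or.inl h2.symm⟩)⟩
        exact (congrArg Subtype.val h').trans h1
  have e2 : (mg (rb H v) a b F) = (mg (iso H v) a b F) ⊔
      (mg (rb H v) a b F) := by
    rw [eq_comm, sup_eq_right]
    intro x y h
    rw [mg_adj] at h ⊢
    obtain ⟨hne, h | ⟨h1, h2 | h2⟩ | ⟨h1, h2 | h2⟩⟩ := h
    · exact ⟨hne, Or.inl (Or.inl h)⟩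
    · exact ⟨hne, Or.inr (Or.inl ⟨h1, Or.inl (Or.inl h2)⟩)⟩
    · exact ⟨hne, Or.inr (Or.inl ⟨h1, Or.inr h2⟩)⟩
    · exact ⟨hne, Or.inr (Or.inr ⟨h1, Or.inl (Or.inl h2)⟩)⟩
    · exact ⟨hne, Or.inr (Or.inr ⟨h1, Or.inr h2⟩)⟩
  ext x y
  rw [rb_adj, e1, e1]
  constructor
  · intro h
    by_cases hi : (mg (iso H v) a b F).Adj x y
    · rw [mg_iso H v a b F hva hvb hvF] at hi
      exact Or.inl hi
    · right
      rw [mg_adj] at h hi
      obtain ⟨hne, h | ⟨h1, h2 | h2⟩ | ⟨h1, h2 | h2⟩⟩ := h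
      · rcases h with h | h
        · exact absurd ⟨hne, Or.inl h⟩ hi
        · exact ⟨hne, Or.inl h.2.1, Or.inl h.2.2⟩
      · rcases h2 with h2 | h2
        · exact absurd ⟨hne, Or.inr (Or.inl ⟨h1, Or.inl h2⟩)⟩ hi
        · exact ⟨hne, Or.inr ⟨h1, h2.2.1⟩, Or.inl h2.2.2⟩
      · exact absurd ⟨hne, Or.inr (Or.inl ⟨h1, Or.inr h2⟩)⟩ hi
      · rcases h2 with h2 | h2
        · exact absurd ⟨hne, Or.inr (Or.inr ⟨h1, Or.inl h2⟩)⟩ hi
        · exact ⟨hne, Or.inl h2.2.2, Or.inr ⟨h1, h2.2.1⟩⟩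
      · exact absurd ⟨hne, Or.inr (Or.inr ⟨h1, Or.inr h2⟩)⟩ hi
  · rintro (h | ⟨hne, h1, h2⟩)
    · rw [e2]
      left
      rw [mg_iso H v a b F hva hvb hvF]
      exact h
    · rw [mg_adj]
      have hne' : (x : V) ≠ y := fun h => hne (Subtype.ext h)
      rcases h1 with h1 | ⟨hx, h1⟩
      · rcases h2 with h2 | ⟨hy, h2⟩
        · exact ⟨hne, Or.inl (Or.inr ⟨hne', h1, h2⟩)⟩
        · exact ⟨hne, Or.inr (Or.inr ⟨hy, Or.inl (Or.inr ⟨fun h => x.2 h.symm, h2, h1⟩)⟩)⟩
      · rcases h2 with h2 | ⟨hy, h2⟩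
        · exact ⟨hne, Or.inr (Or.inl ⟨hx, Or.inl (Or.inr ⟨fun h => y.2 h.symm, h1, h2⟩)⟩)⟩
        · exact absurd (Subtype.ext (hx.trans hy.symm)) hne

end

section

variable {V : Type} [Fintype V]

lemma deg_congr {V : Type} [Fintype V] (G H : SimpleGraph V) (v : V)
    (h : ∀ x, G.Adj v x ↔ H.Adj v x) : deg G v = deg H v := by
  unfold deg
  congr 1
  ext x
  simp only [Finset.mem_filter, Finset.mem_univ, true_and]
  exact h x

lemma deg_iso_ne (G : SimpleGraph V) (v w : V) (hvw : w ≠ v) (h : ¬ G.Adj w v) :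
    deg (iso G v) w = deg G w := by
  apply deg_congr
  intro x
  rw [iso_adj]
  exact ⟨fun h => h.1, fun h' => ⟨h', hvw, fun hx => h (hx ▸ h')⟩⟩

lemma deg_rb_ne (G : SimpleGraph V) (v w : V) (hvw : w ≠ v) (h : ¬ G.Adj w v) :
    deg (rb G v) w = deg G w := by
  apply deg_congr
  intro x
  rw [rb_adj]
  constructor
  · rintro (h' | h')
    · exact h'.1
    · exact absurd h'.2.1.symm h
  · exact fun h' => Or.inl ⟨h', hvw, fun hx => h (hx ▸ h')⟩

open scoped Classical in
lemma deg_iso_adj (G : SimpleGraph V) (v s : V) (h : G.Adj v s) :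
    deg (iso G v) s + 1 = deg G s := by
  have h1 : deg G s = (Finset.univ.filter (fun y : V => y ≠ v ∧ G.Adj s y)).card +
        (if G.Adj s v then 1 else 0) := card_filter_split v (fun y => G.Adj s y)
  rw [h1, if_pos h.symm]
  congr 1
  unfold deg
  congr 1
  ext x
  simp only [Finset.mem_filter, Finset.mem_univ, true_and, iso_adj]
  exact ⟨fun h => ⟨h.2.2, h.1⟩, fun h' => ⟨h'.2, h.ne', h'.1⟩⟩

open scoped Classical in
/-- degree of `v` in a minor `mg H a b F` -/
lemma deg_mg_v (H : SimpleGraph V) (v a b : V) (F : Set V) (hva : v ≠ a) (hvb : v ≠ b)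
    (hab : a ≠ b) (hvF : v ∉ F) (hnb : ¬ (H.Adj v a ∧ H.Adj v b)) [Fintype {x : V // x ≠ b}] :
    deg (mg H a b F) ⟨v, hvb⟩ = deg H v := by
  have e1 : ∀ x : {x : V // x ≠ b}, (mg H a b F).Adj ⟨v, hvb⟩ x ↔
      (H.Adj v x ∨ ((x : V) = a ∧ H.Adj v b)) := by
    intro x
    rw [mg_adj]
    constructor
    · rintro ⟨hne, h | ⟨h1, h2⟩ | ⟨h1, h2 | h2⟩⟩
      · exact Or.inl h
      · exact absurd h1 hva
      · exact Or.inr ⟨h1, h2.symm⟩
      · exact absurd h2 hvF
    · rintro (h | ⟨h1, h2⟩)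
      · exact ⟨fun h' => h.ne (congrArg Subtype.val h'), Or.inl h⟩
      · refine ⟨fun h' => hva ?_, Or.inr (Or.inr ⟨h1, Or.inl h2.symm⟩)⟩
        exact (congrArg Subtype.val h').trans h1
  have e2 : deg (mg H a b F) ⟨v, hvb⟩ = (Finset.univ.filter (fun y : V => y ≠ b ∧
      (H.Adj v y ∨ (y = a ∧ H.Adj v b)))).card := by
    refine Eq.trans ?_ (card_filter_subtype_ne b (fun y => (H.Adj v y ∨ (y = a ∧ H.Adj v b))))
    unfold deg
    congr 1
    ext y
    simp only [Finset.mem_filter, Finset.mem_univ, true_and]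
    exact e1 y
  have e3 : deg H v = (Finset.univ.filter (fun y : V => y ≠ b ∧ H.Adj v y)).card +
        (if H.Adj v b then 1 else 0) := card_filter_split b (fun y => H.Adj v y)
  rw [e2, e3]
  by_cases hb : H.Adj v b
  · rw [if_pos hb]
    have hna : ¬ H.Adj v a := fun h => hnb ⟨h, hb⟩
    have : (Finset.univ.filter (fun y : V => y ≠ b ∧ (H.Adj v y ∨ (y = a ∧ H.Adj v b)))) =
        insert a (Finset.univ.filter (fun y : V => y ≠ b ∧ H.Adj v y)) := by
      ext y
      simp only [Finset.mem_filter, Finset.mem_univ, true_and, Finset.mem_insert]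
      constructor
      · rintro ⟨h1, h2 | h2⟩
        · exact Or.inr ⟨h1, h2⟩
        · exact Or.inl h2.1
      · rintro (h | h)
        · rw [h]; exact ⟨hab, Or.inr ⟨rfl, hb⟩⟩
        · exact ⟨h.1, Or.inl h.2⟩
    rw [this, Finset.card_insert_of_notMem]
    simp only [Finset.mem_filter, Finset.mem_univ, true_and, not_and]
    exact fun _ => hna
  · rw [if_neg hb, add_zero]
    congr 1
    ext y
    simp only [Finset.mem_filter, Finset.mem_univ, true_and]
    constructor
    · rintro ⟨h1, h2 | h2⟩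
      · exact ⟨h1, h2⟩
      · exact absurd h2.2 hb
    · exact fun h => ⟨h.1, Or.inl h.2⟩

/-- an injective labelling of the vertices by natural numbers -/
noncomputable def lab (V : Type) [Fintype V] : V → ℕ := fun x => (Fintype.equivFin V x : ℕ)

lemma lab_inj : Function.Injective (lab V) := by
  intro x y h
  exact (Fintype.equivFin V).injective (Fin.ext h)

end

open scoped Classical in
/-- Key lemma: few colourings are rainbow on the neighbourhood of `v`. -/
theorem ratio : ∀ (n : ℕ) (V : Type) [Fintype V] (G : SimpleGraph V) (v : V),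
    Fintype.card V = n → K5Free G → (deg G v = 4 ∨ deg G v = 5) →
    3 * cnt (rb G v) 5 ≤ (6 - deg G v) * cnt (iso G v) 5 := by
  intro n
  induction n using Nat.strong_induction_on with
  | _ n ih =>
  intro V _ G v hV hG hd
  by_cases hex : ∃ w, w ≠ v ∧ ¬ G.Adj w v ∧ deg G w ≤ 5
  · -- remove `w`
    obtain ⟨w, hwv, hadj, hw5⟩ := hex
    have hvw : v ≠ w := fun h => hwv h.symm
    have h1 := cnt_rec (iso G v) w (lab V) lab_inj 5
    have h2 := cnt_rec (rb G v) w (lab V) lab_inj 5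
    rw [deg_iso_ne G v w hwv hadj, del_iso G v w hvw] at h1
    rw [deg_rb_ne G v w hwv hadj, del_rb G v w hvw] at h2
    have hcd := card_del w
    have hdd : deg (del G w) ⟨v, hvw⟩ = deg G v := by
      have := deg_del G w ⟨v, hvw⟩
      rw [if_neg (fun h => hadj h.symm)] at this
      exact this.symm
    have hA := ih (Fintype.card {x : V // x ≠ w}) (by omega) {x : V // x ≠ w} (del G w) ⟨v, hvw⟩ rfl
      (hG.minor (isMinor_del G w)) (by rw [hdd]; exact hd)
    rw [hdd] at hA
    -- index sets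
    have hprs1 : prs (iso G v) w (lab V) = prs G w (lab V) := by
      ext p
      rw [mem_prs, mem_prs]
      simp only [iso_adj]
      constructor
      · rintro ⟨⟨h1, h2, h3⟩, h4⟩
        exact ⟨⟨h1.1, h2.1, h3⟩, fun h => h4 ⟨h, h1.2.2, h2.2.2⟩⟩
      · rintro ⟨⟨h1, h2, h3⟩, h4⟩
        exact ⟨⟨⟨h1, hwv, fun h => hadj (h ▸ h1)⟩, ⟨h2, hwv, fun h => hadj (h ▸ h2)⟩, h3⟩,
          fun h => h4 h.1⟩
    have hprs2 : ∀ p ∈ prs (rb G v) w (lab V), p ∈ prs G w (lab V) ∧
        ¬ (G.Adj v p.1 ∧ G.Adj v p.2) := by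
      intro p hp
      rw [mem_prs] at hp
      obtain ⟨⟨h1, h2, h3⟩, h4⟩ := hp
      rw [rb_adj] at h1 h2 h4
      have h1' : G.Adj w p.1 := by
        rcases h1 with h | h
        · exact h.1
        · exact absurd h.2.1.symm hadj
      have h2' : G.Adj w p.2 := by
        rcases h2 with h | h
        · exact h.1
        · exact absurd h.2.1.symm hadj
      refine ⟨?_, ?_⟩
      · rw [mem_prs]
        exact ⟨⟨h1', h2', h3⟩, fun h => h4 (Or.inl ⟨h, fun h => hadj (h ▸ h1'),
          fun h => hadj (h ▸ h2')⟩)⟩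
      · rintro ⟨h5, h6⟩
        apply h4
        refine Or.inr ⟨fun h => ?_, h5, h6⟩
        rw [h] at h3
        exact lt_irrefl _ h3
    have hvp : ∀ p ∈ prs G w (lab V), v ≠ p.1 ∧ v ≠ p.2 := by
      intro p hp
      rw [mem_prs] at hp
      exact ⟨fun h => hadj (h ▸ hp.1.1), fun h => hadj (h ▸ hp.1.2.1)⟩
    have hFs : ∀ (H : SimpleGraph V), (∀ x, H.Adj w x ↔ G.Adj w x) → ∀ p : {x : V // x ≠ w} × {x : V // x ≠ w},
        Fset H w (lab V) p.1 p.2 = Fset G w (lab V) p.1 p.2 := by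
      intro H hH p
      ext m
      unfold Fset
      simp only [Set.mem_ofPred_eq]
      rw [hH]
    have hisoadj : ∀ x, (iso G v).Adj w x ↔ G.Adj w x := by
      intro x
      rw [iso_adj]
      exact ⟨fun h => h.1, fun h => ⟨h, hwv, fun hx => hadj (hx ▸ h)⟩⟩
    have hrbadj : ∀ x, (rb G v).Adj w x ↔ G.Adj w x := by
      intro x
      rw [rb_adj]
      constructor
      · rintro (h | h)
        · exact h.1
        · exact absurd h.2.1.symm hadj
      · exact fun h => Or.inl ⟨h, hwv, fun hx => hadj (hx ▸ h)⟩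
    have hvF : ∀ p : {x : V // x ≠ w} × {x : V // x ≠ w},
        (⟨v, hvw⟩ : {x : V // x ≠ w}) ∉ Fset G w (lab V) p.1 p.2 := fun p h => hadj h.1
    rw [hprs1] at h1
    -- termwise inequality
    have hterm : ∀ p ∈ prs (rb G v) w (lab V),
        3 * cnt (mm (rb G v) w (lab V) p) 5 ≤ (6 - deg G v) * cnt (mm (iso G v) w (lab V) p) 5 := by
      intro p hp
      obtain ⟨hpG, hnb⟩ := hprs2 p hp
      have hv := hvp p hpG
      have hv1 : (⟨v, hvw⟩ : {x : V // x ≠ w}) ≠ p.1 := fun h => hv.1 (congrArg Subtype.val h)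
      have hv2 : (⟨v, hvw⟩ : {x : V // x ≠ w}) ≠ p.2 := fun h => hv.2 (congrArg Subtype.val h)
      have hne : p.1 ≠ p.2 := by
        intro h
        rw [mem_prs] at hpG
        have := hpG.1.2.2
        rw [h] at this
        exact lt_irrefl _ this
      have e1 : mm (rb G v) w (lab V) p = rb (mm G w (lab V) p) ⟨⟨v, hvw⟩, hv2⟩ := by
        unfold mm
        rw [del_rb G v w hvw, hFs _ hrbadj, mg_rb _ _ _ _ _ hv1 hv2 (hvF p)]
      have e2 : mm (iso G v) w (lab V) p = iso (mm G w (lab V) p) ⟨⟨v, hvw⟩, hv2⟩ := by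
        unfold mm
        rw [del_iso G v w hvw, hFs _ hisoadj, mg_iso _ _ _ _ _ hv1 hv2 (hvF p)]
      have e3 : deg (mm G w (lab V) p) ⟨⟨v, hvw⟩, hv2⟩ = deg G v := by
        unfold mm
        rw [deg_mg_v _ _ _ _ _ hv1 hv2 hne (hvF p) (fun h => hnb h), hdd]
      rw [e1, e2]
      have hc := card_mm w p.2
      have := ih _ (by omega) {x : {x : V // x ≠ w} // x ≠ p.2} (mm G w (lab V) p)
        ⟨⟨v, hvw⟩, hv2⟩ rfl (hG.minor (isMinor_mm G w (lab V) p hpG)) (by rw [e3]; exact hd)
      rw [e3] at this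
      exact this
    have hsum : 3 * ∑ p ∈ prs (rb G v) w (lab V), cnt (mm (rb G v) w (lab V) p) 5 ≤
        (6 - deg G v) * ∑ p ∈ prs G w (lab V), cnt (mm (iso G v) w (lab V) p) 5 := by
      rw [Finset.mul_sum, Finset.mul_sum]
      refine le_trans (Finset.sum_le_sum hterm) ?_
      apply Finset.sum_le_sum_of_subset
      intro p hp
      exact (hprs2 p hp).1
    obtain ⟨j, hj⟩ : ∃ j, deg G w + j = 5 := ⟨5 - deg G w, by omega⟩
    set A := cnt (iso (del G w) ⟨v, hvw⟩) 5
    set A' := cnt (rb (del G w) ⟨v, hvw⟩) 5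
    set B := ∑ p ∈ prs G w (lab V), cnt (mm (iso G v) w (lab V) p) 5
    set B' := ∑ p ∈ prs (rb G v) w (lab V), cnt (mm (rb G v) w (lab V) p) 5
    have h1' : cnt (iso G v) 5 = j * A + B := by
      have : deg G w * A + j * A = 5 * A := by rw [← add_mul, hj]
      omega
    have h2' : cnt (rb G v) 5 = j * A' + B' := by
      have : deg G w * A' + j * A' = 5 * A' := by rw [← add_mul, hj]
      omega
    rw [h1', h2']
    have : j * (3 * A') ≤ j * ((6 - deg G v) * A) := Nat.mul_le_mul_left _ hA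
    calc 3 * (j * A' + B') = j * (3 * A') + 3 * B' := by ring
      _ ≤ j * ((6 - deg G v) * A) + (6 - deg G v) * B := by omega
      _ = (6 - deg G v) * (j * A + B) := by ring
  · -- a neighbour of `v` has degree at most 3
    push Not at hex
    obtain ⟨s, hs, hs3⟩ : ∃ s, G.Adj v s ∧ deg G s ≤ 3 := by
      by_contra hno
      push Not at hno
      have hn3 : 3 ≤ Fintype.card V := by
        have := deg_lt_card G v
        omega
      have hb := edge_bound _ _ V G rfl rfl hG hn3
      have hsum : ∑ _x : V, 6 ≤ ∑ x : V, (deg G x + ((if x = v then (6 - deg G v) else 0) +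
          (if G.Adj v x then 2 else 0))) := by
        apply Finset.sum_le_sum
        intro x _
        by_cases hx : x = v
        · rw [if_pos hx, hx]; omega
        · rw [if_neg hx]
          by_cases hvx : G.Adj v x
          · rw [if_pos hvx]
            have := hno x hvx
            omega
          · have := hex x hx (fun h => hvx h.symm)
            omega
      rw [Finset.sum_add_distrib, Finset.sum_add_distrib] at hsum
      simp only [Finset.sum_const, Finset.card_univ, smul_eq_mul, Finset.sum_ite_eq',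
        Finset.mem_univ, if_true] at hsum
      have h2 : ∑ x : V, (if G.Adj v x then 2 else 0) = 2 * deg G v := by
        unfold deg
        rw [Finset.card_filter, Finset.mul_sum]
        apply Finset.sum_congr rfl
        intro x _
        split_ifs <;> rfl
      have h3 : ∑ x : V, deg G x = dsum G := rfl
      rw [h2, h3] at hsum
      omega
    have hsv : s ≠ v := hs.ne'
    -- lower bound
    have hT : 3 * (cols (del (iso G v) s) 5).card ≤ cnt (iso G v) 5 := by
      rw [cnt_eq_sum_avail (iso G v) s 5]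
      rw [mul_comm, ← smul_eq_mul, ← Finset.sum_const]
      apply Finset.sum_le_sum
      intro c _
      have h1 := card_avail (iso G v) s 5 c
      have h2 : ((nb (iso G v) s).image c).card ≤ (nb (iso G v) s).card := Finset.card_image_le
      rw [card_nb] at h2
      have h3 := deg_iso_adj G v s hs
      omega
    have hR : cnt (rb G v) 5 ≤ (6 - deg G v) * (cols (del (rb G v) s) 5).card := by
      rw [cnt_eq_sum_avail (rb G v) s 5]
      rw [mul_comm, ← smul_eq_mul, ← Finset.sum_const]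
      apply Finset.sum_le_sum
      intro c hc
      rw [mem_cols] at hc
      have h1 := card_avail (rb G v) s 5 c
      -- the other neighbours of v
      have h2 : deg G v ≤ ((nb (rb G v) s).image c).card + 1 := by
        have h3 : (Finset.univ.filter (fun x : {x : V // x ≠ s} => G.Adj v x)).card + 1 = deg G v := by
          rw [card_filter_subtype_ne s (fun x => G.Adj v x)]
          have h4 : deg G v = (Finset.univ.filter (fun y : V => y ≠ s ∧ G.Adj v y)).card +
            (if G.Adj v s then 1 else 0) := card_filter_split s (fun y => G.Adj v y)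
          rw [h4, if_pos hs]
        rw [← h3]
        apply Nat.add_le_add_right
        apply Finset.card_le_card_of_injOn c
        · intro x hx
          rw [Finset.mem_coe, Finset.mem_filter] at hx
          rw [Finset.mem_coe, Finset.mem_image]
          refine ⟨x, ?_, rfl⟩
          rw [mem_nb, rb_adj]
          exact Or.inr ⟨fun h => x.2 h.symm, hs, hx.2⟩
        · intro x hx y hy hxy
          rw [Finset.mem_coe, Finset.mem_filter] at hx hy
          by_contra hne
          apply hc x y _ hxy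
          rw [del_adj, rb_adj]
          exact Or.inr ⟨fun h => hne (Subtype.ext h), hx.2, hy.2⟩
      omega
    have hRT : (cols (del (rb G v) s) 5).card ≤ (cols (del (iso G v) s) 5).card := by
      apply Finset.card_le_card
      intro c hc
      rw [mem_cols] at hc ⊢
      intro x y hxy
      exact hc x y (Or.inl hxy)
    calc 3 * cnt (rb G v) 5 ≤ 3 * ((6 - deg G v) * (cols (del (rb G v) s) 5).card) := by omega
      _ = (6 - deg G v) * (3 * (cols (del (rb G v) s) 5).card) := by ring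
      _ ≤ (6 - deg G v) * (3 * (cols (del (iso G v) s) 5).card) :=
          Nat.mul_le_mul_left _ (Nat.mul_le_mul_left _ hRT)
      _ ≤ (6 - deg G v) * cnt (iso G v) 5 := Nat.mul_le_mul_left _ hT

open scoped Classical in
/-- Deleting a vertex of degree at most five. -/
theorem cnt_del_le {V : Type} [Fintype V] (G : SimpleGraph V) (v : V) (hG : K5Free G) :
    (deg G v = 5 → 2 * cnt (del G v) 5 ≤ 3 * cnt G 5) ∧
    (deg G v ≤ 4 → 4 * cnt (del G v) 5 ≤ 3 * cnt G 5) := by
  have hiso : cnt (iso G v) 5 = 5 * cnt (del G v) 5 := by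
    rw [cnt_eq_sum_avail (iso G v) v 5]
    have h1 : del (iso G v) v = del G v := by
      ext x y
      rw [del_adj, del_adj, iso_adj]
      exact ⟨fun h => h.1, fun h => ⟨h, x.2, y.2⟩⟩
    rw [h1, mul_comm]
    unfold cnt
    rw [← smul_eq_mul, ← Finset.sum_const]
    apply Finset.sum_congr rfl
    intro c _
    have h2 := card_avail (iso G v) v 5 c
    have h3 : nb (iso G v) v = ∅ := by
      apply Finset.eq_empty_of_forall_notMem
      intro x hx
      rw [mem_nb, iso_adj] at hx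
      exact hx.2.1 rfl
    rw [h3] at h2
    simpa using h2
  have hrb : cnt (rb G v) 5 = 5 * (cols (del (rb G v) v) 5).card := by
    rw [cnt_eq_sum_avail (rb G v) v 5]
    rw [mul_comm, ← smul_eq_mul, ← Finset.sum_const]
    apply Finset.sum_congr rfl
    intro c _
    have h2 := card_avail (rb G v) v 5 c
    have h3 : nb (rb G v) v = ∅ := by
      apply Finset.eq_empty_of_forall_notMem
      intro x hx
      rw [mem_nb, rb_adj] at hx
      rcases hx with h | h
      · exact h.2.1 rfl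
      · exact h.2.1.ne rfl
    rw [h3] at h2
    simpa using h2
  have hsub : cols (del (rb G v) v) 5 ⊆ cols (del G v) 5 := by
    intro c hc
    rw [mem_cols] at hc ⊢
    intro x y hxy
    exact hc x y (Or.inl ⟨hxy, x.2, y.2⟩)
  have hlow : ∀ c ∈ cols (del G v) 5, 5 ≤ (avail G v 5 c).card + deg G v := by
    intro c _
    have h1 := card_avail G v 5 c
    have h2 : ((nb G v).image c).card ≤ (nb G v).card := Finset.card_image_le
    rw [card_nb] at h2
    omega
  have hlow2 : ∀ c ∈ cols (del G v) 5, c ∉ cols (del (rb G v) v) 5 →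
      6 ≤ (avail G v 5 c).card + deg G v := by
    intro c hc hcn
    have h1 := card_avail G v 5 c
    have h2 : ((nb G v).image c).card < (nb G v).card := by
      apply lt_of_le_of_ne Finset.card_image_le
      intro heq
      apply hcn
      rw [mem_cols] at hc ⊢
      intro x y hxy
      rw [del_adj, rb_adj] at hxy
      rcases hxy with h | h
      · exact hc x y h.1
      · intro hcc
        have hinj := Finset.injOn_of_card_image_eq heq
        apply h.1
        exact congrArg Subtype.val (hinj (Finset.mem_coe.mpr ((mem_nb G v x).mpr h.2.1))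
          (Finset.mem_coe.mpr ((mem_nb G v y).mpr h.2.2)) hcc)
    rw [card_nb] at h2
    omega
  have hcnt := cnt_eq_sum_avail G v 5
  set T := cols (del G v) 5 with hT
  set R := cols (del (rb G v) v) 5 with hR
  have hcT : cnt (del G v) 5 = T.card := rfl
  have key : ∀ d, deg G v = d → d ≤ 5 → (6 - d) * T.card ≤ cnt G 5 + R.card := by
    intro d hd hd5
    rw [hcnt]
    have h1 : ∑ c ∈ T, (avail G v 5 c).card + R.card = ∑ c ∈ T, ((avail G v 5 c).card +
        (if c ∈ R then 1 else 0)) := by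
      rw [Finset.sum_add_distrib]
      congr 1
      rw [← Finset.card_filter]
      congr 1
      ext c
      rw [Finset.mem_filter]
      exact ⟨fun h => ⟨hsub h, h⟩, fun h => h.2⟩
    rw [h1, mul_comm, ← smul_eq_mul, ← Finset.sum_const]
    apply Finset.sum_le_sum
    intro c hc
    by_cases hcR : c ∈ R
    · rw [if_pos hcR]
      have := hlow c hc
      omega
    · rw [if_neg hcR]
      have := hlow2 c hc hcR
      omega
  constructor
  · intro h5
    have h1 := key 5 h5 le_rfl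
    have h2 := ratio _ V G v rfl hG (Or.inr h5)
    rw [hiso, hrb, h5, hcT] at h2
    rw [hcT]
    omega
  · intro h4
    rw [hcT]
    rcases Nat.lt_or_ge (deg G v) 4 with h | h
    · -- degree at most 3
      have : 2 * T.card ≤ cnt G 5 := by
        rw [hcnt, mul_comm, ← smul_eq_mul, ← Finset.sum_const]
        apply Finset.sum_le_sum
        intro c hc
        have := hlow c hc
        omega
      omega
    · have h4' : deg G v = 4 := by omega
      have h1 := key 4 h4' (by norm_num)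
      have h2 := ratio _ V G v rfl hG (Or.inl h4')
      rw [hiso, hrb, h4', hcT] at h2
      omega

end Pool.Agent.Helper36.BL
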